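import Pool.Statements.S00362
import Pool.Agent.J6H59.Deltoid.Irred
import Pool.Agent.J6H59.Deltoid.Sing

set_option autoImplicit false
open Pool Pool.MP_aaa69e_ag

/-!
# The deltoid

The curve `u²v² - 4u³ - 4v³ + 18uv - 27 = 0` (the complexified deltoid, the discriminant of
`X³ - uX² + vX - 1`) is irreducible and homeomorphic to `ℂ ∖ {0}` through
`z ↦ (2z + z⁻², z² + 2z⁻¹)`.  So its first Betti number is one, but it has three cusps, at the
points `z³ = 1`.
-/

namespace Pool.Agent.S00362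

open Pool.Agent.J6H59.Deltoid in
/-- The negation of the preceding statement: For every irreducible f in ℂ[x,y], the number of singular points of the curve f=0 where the curve has one local branch is at most the first Betti number (rank of abelianized fundamental group) of the curve plus one. -/
theorem result :
    ¬ (∀ f : MvPolynomial (Fin 2) ℂ, Irreducible f →
    ∀ x₀ : ↥{z : Fin 2 → ℂ | MvPolynomial.eval z f = 0},
    Set.ncard {p : Fin 2 → ℂ | MvPolynomial.eval p f = 0 ∧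
        (∀ i : Fin 2, MvPolynomial.eval p (MvPolynomial.pderiv i f) = 0) ∧
        ∃ ε : ℝ, 0 < ε ∧ ∀ δ : ℝ, 0 < δ → δ < ε →
          IsPreconnected {q : Fin 2 → ℂ | MvPolynomial.eval q f = 0 ∧ q ≠ p ∧
            ‖q 0 - p 0‖ ^ 2 + ‖q 1 - p 1‖ ^ 2 < δ ^ 2}}
      ≤ Module.finrank ℤ
          (Additive (Abelianization
            (FundamentalGroup ↥{z : Fin 2 → ℂ | MvPolynomial.eval z f = 0} x₀))) + 1) := by
  intro H
  have h1 := H Pool.Agent.J6H59.Deltoid.f irreducible_f ⟨gam 1, eval_gam 1 one_ne_zero⟩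
  have h2 := finrank_le ⟨gam 1, eval_gam 1 one_ne_zero⟩
  set S : Set (Fin 2 → ℂ) := {p : Fin 2 → ℂ |
        MvPolynomial.eval p Pool.Agent.J6H59.Deltoid.f = 0 ∧
        (∀ i : Fin 2, MvPolynomial.eval p
          (MvPolynomial.pderiv i Pool.Agent.J6H59.Deltoid.f) = 0) ∧
        ∃ ε : ℝ, 0 < ε ∧ ∀ δ : ℝ, 0 < δ → δ < ε →
          IsPreconnected {q : Fin 2 → ℂ |
            MvPolynomial.eval q Pool.Agent.J6H59.Deltoid.f = 0 ∧ q ≠ p ∧
            ‖q 0 - p 0‖ ^ 2 + ‖q 1 - p 1‖ ^ 2 < δ ^ 2}} with hS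
  have h3 : S.ncard ≤ 1 + 1 := h1.trans (Nat.add_le_add_right h2 1)
  -- every root of unity gives a point
  have mem : ∀ ζ : ℂ, ζ ^ 3 = 1 → gam ζ ∈ S := by
    intro ζ hζ
    have hζ0 : ζ ≠ 0 := by rintro rfl; norm_num at hζ
    refine ⟨eval_gam ζ hζ0, ?_, 1 / 16, by norm_num, ?_⟩
    · have hζ6 : ζ ^ 6 = 1 := by rw [show (6 : ℕ) = 3 * 2 by norm_num, pow_mul, hζ, one_pow]
      intro i
      fin_cases i
      · show MvPolynomial.eval (gam ζ) (MvPolynomial.pderiv 0 Pool.Agent.J6H59.Deltoid.f) = 0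
        rw [eval_pderiv_zero, gam_root hζ]
        simp
        linear_combination (54 * ζ ^ 2) * hζ
      · show MvPolynomial.eval (gam ζ) (MvPolynomial.pderiv 1 Pool.Agent.J6H59.Deltoid.f) = 0
        rw [eval_pderiv_one, gam_root hζ]
        simp
        linear_combination (-54 * ζ) * hζ
    · intro δ hδ0 hδ1
      exact cusp hζ hδ0 hδ1
  have fin : S.Finite := by
    have hroots : {z : ℂ | z ^ 3 = 1}.Finite := by
      have hp : (Polynomial.X ^ 3 - 1 : Polynomial ℂ) ≠ 0 := by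
        intro h0
        have := congrArg (Polynomial.eval 0) h0
        simp at this
      have := Polynomial.finite_setOfPred_isRoot hp
      refine this.subset ?_
      intro z hz
      have hz' : z ^ 3 = 1 := hz
      simp [Polynomial.IsRoot, hz']
    refine (hroots.image gam).subset ?_
    rintro p ⟨p1, p2, -⟩
    obtain ⟨z, hz, rfl⟩ := exists_gam p p1
    exact ⟨z, sing_param hz (p2 0), rfl⟩
  -- three different roots of unity
  obtain ⟨ω, hω⟩ : ∃ ω : ℂ, ω ^ 2 + ω + 1 = 0 := by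
    obtain ⟨s, hs⟩ := IsAlgClosed.exists_pow_nat_eq (-3 : ℂ) (n := 2) (by norm_num)
    refine ⟨(-1 + s) / 2, ?_⟩
    linear_combination (1 / 4 : ℂ) * hs
  have hω3 : ω ^ 3 = 1 := by linear_combination (ω - 1) * hω
  have hω0 : ω ≠ 0 := by rintro rfl; norm_num at hω
  have hω1 : ω ≠ 1 := by rintro rfl; norm_num at hω
  have hω23 : (ω ^ 2) ^ 3 = 1 := by rw [← pow_mul, mul_comm, pow_mul, hω3, one_pow]
  have ha : gam 1 ∈ S := mem 1 (one_pow 3)
  have hb : gam ω ∈ S := mem ω hω3
  have hc : gam (ω ^ 2) ∈ S := mem (ω ^ 2) hω23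
  have hab : gam 1 ≠ gam ω := fun h => hω1 (gam_inj one_ne_zero hω0 h).symm
  have hac : gam 1 ≠ gam (ω ^ 2) := by
    intro h
    have h5 := gam_inj one_ne_zero (pow_ne_zero 2 hω0) h
    apply hω1
    linear_combination ω * h5 + hω3
  have hbc : gam ω ≠ gam (ω ^ 2) := by
    intro h
    have h5 := gam_inj hω0 (pow_ne_zero 2 hω0) h
    apply hω1
    have : ω * (ω - 1) = 0 := by linear_combination -h5
    exact sub_eq_zero.mp ((mul_eq_zero.mp this).resolve_left hω0)
  have h4 : 2 < S.ncard := (Set.two_lt_ncard_iff fin).mpr ⟨_, _, _, ha, hb, hc, hab, hac, hbc⟩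
  omega

end Pool.Agent.S00362
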