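import Pool.Statements.S02286

set_option autoImplicit false
open Pool Pool.MP_91b10e_al

namespace Pool.Agent.S02286

/-- The finite nonabelian group used as a factor. -/
abbrev S : Type := Equiv.Perm (Fin 3)

instance : TopologicalSpace S := ⊥
instance : DiscreteTopology S := ⟨rfl⟩

/-- The countable power of the symmetric group on three letters. -/
abbrev P : Type := ℕ → S

lemma evalCont (w : Monoid.Coprod P (Multiplicative ℤ)) :
    Continuous (fun x : P => Monoid.Coprod.lift (MonoidHom.id P) (zpowersHom P x) w) := by
  induction w using Monoid.Coprod.induction_on with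
  | inl g => simpa using continuous_const
  | inr n =>
    simp only [Monoid.Coprod.lift_apply_inr]
    have : (fun x : P => (zpowersHom P x) n) = fun x : P => x ^ (Multiplicative.toAdd n) := by
      funext x; simp
    rw [this]
    exact continuous_zpow _
  | mul a b ha hb =>
    simp only [map_mul]
    exact ha.mul hb

/-- The transposition at coordinate `n`. -/
def g (n : ℕ) : P := Pi.mulSingle n (Equiv.swap 0 1)
/-- Another transposition at coordinate `n`. -/
def h (n : ℕ) : P := Pi.mulSingle n (Equiv.swap 1 2)

/-- The word `x g x⁻¹ g⁻¹`. -/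
def wd (a : P) : Monoid.Coprod P (Multiplicative ℤ) :=
  Monoid.Coprod.inr (Multiplicative.ofAdd 1) * Monoid.Coprod.inl a *
    Monoid.Coprod.inr (Multiplicative.ofAdd (-1)) * Monoid.Coprod.inl a⁻¹

lemma wd_eval (a x : P) :
    Monoid.Coprod.lift (MonoidHom.id P) (zpowersHom P x) (wd a) = x * a * x⁻¹ * a⁻¹ := by
  simp [wd]

lemma nc (n : ℕ) : h n * g n * (h n)⁻¹ * (g n)⁻¹ ≠ 1 := by
  intro hh
  have := congrFun hh n
  simp only [h, g, Pi.mul_apply, Pi.inv_apply, Pi.mulSingle_eq_same, Pi.one_apply] at this
  revert this
  decide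

lemma cc (m n : ℕ) (hmn : m ≠ n) : h m * g n * (h m)⁻¹ * (g n)⁻¹ = 1 := by
  funext k
  simp only [h, g, Pi.mul_apply, Pi.inv_apply, Pi.one_apply]
  by_cases hk : k = m
  · subst hk
    rw [Pi.mulSingle_eq_of_ne hmn]
    simp
  · rw [Pi.mulSingle_eq_of_ne hk]
    simp

/-- The negation of the preceding statement: For every group G, if the Zariski topology (closed subbasis: solution sets of one-variable equations with constants from G) is compact, then it is Noetherian. -/
theorem result :
    ¬ (∀ (G : Type) [Group G],
      @IsCompact G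
        (TopologicalSpace.generateFrom
          {U : Set G | ∃ w : Monoid.Coprod G (Multiplicative ℤ),
            U = {x : G | Monoid.Coprod.lift (MonoidHom.id G) (zpowersHom G x) w ≠ 1}})
        Set.univ →
      @TopologicalSpace.NoetherianSpace G
        (TopologicalSpace.generateFrom
          {U : Set G | ∃ w : Monoid.Coprod G (Multiplicative ℤ),
            U = {x : G | Monoid.Coprod.lift (MonoidHom.id G) (zpowersHom G x) w ≠ 1}})) := by
  intro H
  have hle : (inferInstance : TopologicalSpace P) ≤ (TopologicalSpace.generateFrom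
          {U : Set P | ∃ w : Monoid.Coprod P (Multiplicative ℤ),
            U = {x : P | Monoid.Coprod.lift (MonoidHom.id P) (zpowersHom P x) w ≠ 1}}) := by
    apply le_generateFrom
    rintro U ⟨w, rfl⟩
    exact (isOpen_compl_singleton (x := (1 : P))).preimage (evalCont w)
  have hc : @IsCompact P
        (TopologicalSpace.generateFrom
          {U : Set P | ∃ w : Monoid.Coprod P (Multiplicative ℤ),
            U = {x : P | Monoid.Coprod.lift (MonoidHom.id P) (zpowersHom P x) w ≠ 1}})
        Set.univ := by
    have h1 : IsCompact (Set.univ : Set P) := isCompact_univ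
    have h2 := @IsCompact.image P P inferInstance (TopologicalSpace.generateFrom
          {U : Set P | ∃ w : Monoid.Coprod P (Multiplicative ℤ),
            U = {x : P | Monoid.Coprod.lift (MonoidHom.id P) (zpowersHom P x) w ≠ 1}})
          Set.univ id h1 (continuous_id_of_le hle)
    simpa using h2
  have hN := H P hc
  revert hN
  generalize ht : (TopologicalSpace.generateFrom
          {U : Set P | ∃ w : Monoid.Coprod P (Multiplicative ℤ),
            U = {x : P | Monoid.Coprod.lift (MonoidHom.id P) (zpowersHom P x) w ≠ 1}}) = t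
  intro hN
  let V : ℕ → Set P := fun n => {x : P | x * g n * x⁻¹ * (g n)⁻¹ ≠ 1}
  have hV : ∀ n, @IsOpen P t (V n) := by
    intro n
    rw [← ht]
    apply TopologicalSpace.isOpen_generateFrom_of_mem
    refine ⟨wd (g n), ?_⟩
    ext x
    simp only [V, Set.mem_ofPred_eq, wd_eval]
  have hcomp : @IsCompact P t (⋃ n, V n) := @TopologicalSpace.NoetherianSpace.isCompact P t hN _
  obtain ⟨s, hs⟩ := @IsCompact.elim_finite_subcover P t _ ℕ hcomp V hV (le_refl _)
  obtain ⟨m, hm⟩ := Infinite.exists_notMem_finset s
  have h1 : h m ∈ ⋃ n, V n := Set.mem_iUnion.2 ⟨m, nc m⟩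
  have h2 := hs h1
  simp only [Set.mem_iUnion] at h2
  obtain ⟨i, hi, hmem⟩ := h2
  have hne : m ≠ i := fun e => hm (e ▸ hi)
  exact hmem (cc m i hne)

end Pool.Agent.S02286
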