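import Pool.Statements.S02472
import Pool.Agent.J6H98.Chiral.Main
-- import your own Pool.Agent.* helpers here

set_option autoImplicit false
open Pool Pool.MP_9c3b79_al

namespace Pool.Agent.S02472

/-- The negation of the preceding statement: For positive integers s ≠ t, the group ⟨σ1,σ2,σ3 : σ1^4=σ2^4=σ3^3=(σ1σ2)^2=(σ2σ3)^2=(σ1σ2σ3)^2=(σ1⁻¹σ2)^s(σ1σ2⁻¹)^t=1⟩ is finite iff {s,t} is {1,2}, {1,3}, {1,4} or {2,3}. -/
theorem result :
    ¬ (∀ s t : ℕ, 0 < s → 0 < t → s ≠ t →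
      (Finite (PresentedGroup
        ({FreeGroup.of (0 : Fin 3) ^ 4,
          FreeGroup.of (1 : Fin 3) ^ 4,
          FreeGroup.of (2 : Fin 3) ^ 3,
          (FreeGroup.of (0 : Fin 3) * FreeGroup.of (1 : Fin 3)) ^ 2,
          (FreeGroup.of (1 : Fin 3) * FreeGroup.of (2 : Fin 3)) ^ 2,
          (FreeGroup.of (0 : Fin 3) * FreeGroup.of (1 : Fin 3) * FreeGroup.of (2 : Fin 3)) ^ 2,
          ((FreeGroup.of (0 : Fin 3))⁻¹ * FreeGroup.of (1 : Fin 3)) ^ s *
            (FreeGroup.of (0 : Fin 3) * (FreeGroup.of (1 : Fin 3))⁻¹) ^ t}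
          : Set (FreeGroup (Fin 3)))) ↔
        ((s = 1 ∧ t = 2) ∨ (s = 2 ∧ t = 1) ∨
         (s = 1 ∧ t = 3) ∨ (s = 3 ∧ t = 1) ∨
         (s = 1 ∧ t = 4) ∨ (s = 4 ∧ t = 1) ∨
         (s = 2 ∧ t = 3) ∨ (s = 3 ∧ t = 2)))) := by
  intro h
  have h24 := (h 2 4 (by norm_num) (by norm_num) (by norm_num)).mp ?_
  · omega
  · generalize hrels : (({FreeGroup.of (0 : Fin 3) ^ 4,
          FreeGroup.of (1 : Fin 3) ^ 4,
          FreeGroup.of (2 : Fin 3) ^ 3,
          (FreeGroup.of (0 : Fin 3) * FreeGroup.of (1 : Fin 3)) ^ 2,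
          (FreeGroup.of (1 : Fin 3) * FreeGroup.of (2 : Fin 3)) ^ 2,
          (FreeGroup.of (0 : Fin 3) * FreeGroup.of (1 : Fin 3) * FreeGroup.of (2 : Fin 3)) ^ 2,
          ((FreeGroup.of (0 : Fin 3))⁻¹ * FreeGroup.of (1 : Fin 3)) ^ 2 *
            (FreeGroup.of (0 : Fin 3) * (FreeGroup.of (1 : Fin 3))⁻¹) ^ 4}
          : Set (FreeGroup (Fin 3)))) = rels
    have hone : ∀ r ∈ rels, PresentedGroup.mk rels r = 1 := fun r hr =>
      PresentedGroup.one_of_mem hr
    set φ : FreeGroup (Fin 3) →* PresentedGroup rels := PresentedGroup.mk rels with hφ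
    have e : ∀ i : Fin 3, (PresentedGroup.of i : PresentedGroup rels) = φ (FreeGroup.of i) :=
      fun i => rfl
    apply Pool.Agent.J6H98.Chiral.finite_of_relations
      (a := (PresentedGroup.of 0 : PresentedGroup rels))
      (b := (PresentedGroup.of 1 : PresentedGroup rels))
      (c := (PresentedGroup.of 2 : PresentedGroup rels))
    · rw [e, ← MonoidHom.map_pow]
      exact hone _ (by rw [← hrels]; simp)
    · rw [e, ← MonoidHom.map_pow]
      exact hone _ (by rw [← hrels]; simp)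
    · rw [e, ← MonoidHom.map_pow]
      exact hone _ (by rw [← hrels]; simp)
    · rw [e, e, ← MonoidHom.map_mul, ← MonoidHom.map_pow]
      exact hone _ (by rw [← hrels]; simp)
    · rw [e, e, ← MonoidHom.map_mul, ← MonoidHom.map_pow]
      exact hone _ (by rw [← hrels]; simp)
    · rw [e, e, e, ← MonoidHom.map_mul, ← MonoidHom.map_mul, ← MonoidHom.map_pow]
      exact hone _ (by rw [← hrels]; simp)
    · rw [e, e, ← MonoidHom.map_inv, ← MonoidHom.map_inv, ← MonoidHom.map_mul,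
        ← MonoidHom.map_mul, ← MonoidHom.map_pow, ← MonoidHom.map_pow, ← MonoidHom.map_mul]
      exact hone _ (by rw [← hrels]; simp)
    · rw [eq_top_iff, ← PresentedGroup.closure_range_of rels, Subgroup.closure_le]
      rintro x ⟨i, rfl⟩
      apply Subgroup.subset_closure
      fin_cases i
      · exact Or.inl rfl
      · exact Or.inr (Or.inl rfl)
      · exact Or.inr (Or.inr rfl)

end Pool.Agent.S02472
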