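import Pool.Statements.S04820
import Pool.Agent.J6H90.Spec.Hilb

set_option autoImplicit false
open MeasureTheory Matrix
open scoped ENNReal Real
open Pool Pool.MP_5f557b_an

namespace Pool.Agent.S04820

open Pool.Agent.J6H90.Spec Set

/-- the matrix -/
def Rd : Matrix (Fin 1) (Fin 1) ℤ := Matrix.diagonal fun _ => 12

/-- the digits -/
def Bd : Finset (Fin 1 → ℤ) := {fun _ => 0, fun _ => 1, fun _ => 8, fun _ => 9}

lemma det_Rd : Rd.det = 12 := by
  unfold Rd
  rw [Matrix.det_diagonal]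
  simp

lemma root_cond (z : ℂ) (hz : (Rd.map (Int.cast : ℤ → ℂ)).charpoly.IsRoot z) : 1 < ‖z‖ := by
  have h1 : Rd.map (Int.cast : ℤ → ℂ) = Matrix.diagonal fun _ => (12 : ℂ) := by
    unfold Rd
    rw [Matrix.diagonal_map (by simp)]
    simp
  rw [h1, Matrix.charpoly_diagonal] at hz
  simp only [Finset.univ_unique, Finset.prod_singleton, Polynomial.IsRoot.def,
    Polynomial.eval_sub, Polynomial.eval_X, Polynomial.eval_C] at hz
  have : z = 12 := by linear_combination hz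
  rw [this]
  simp

lemma mulVec_Rd (v : Fin 1 → ℤ) : Rd *ᵥ v = fun i => 12 * v i := by
  unfold Rd
  funext i
  rw [Matrix.mulVec_diagonal]

lemma simple_digits : ∀ b ∈ Bd, ∀ b' ∈ Bd, b ≠ b' → ¬ ∃ v : Fin 1 → ℤ, Rd *ᵥ v = b - b' := by
  intro b hb b' hb' hne
  rintro ⟨v, hv⟩
  rw [mulVec_Rd] at hv
  have h0 := congrFun hv 0
  simp only [Pi.sub_apply] at h0
  have hne0 : b 0 ≠ b' 0 := by
    intro h
    apply hne
    funext i
    rw [Subsingleton.elim i 0, h]
  simp only [Bd, Finset.mem_insert, Finset.mem_singleton] at hb hb'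
  rcases hb with rfl | rfl | rfl | rfl <;> rcases hb' with rfl | rfl | rfl | rfl <;>
    simp only at h0 hne0 <;> omega

lemma closure_top :
    AddSubgroup.closure {v : Fin 1 → ℤ | ∃ k : ℕ, ∃ b ∈ Bd, v = (Rd ^ k) *ᵥ b} = ⊤ := by
  rw [eq_top_iff]
  intro v _
  have h1 : (fun _ => 1 : Fin 1 → ℤ) ∈
      AddSubgroup.closure {v : Fin 1 → ℤ | ∃ k : ℕ, ∃ b ∈ Bd, v = (Rd ^ k) *ᵥ b} := by
    apply AddSubgroup.subset_closure
    exact ⟨0, fun _ => 1, by decide, by simp⟩
  have h2 : v = (v 0) • (fun _ => 1 : Fin 1 → ℤ) := by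
    funext i
    rw [Subsingleton.elim i 0]
    simp
  rw [h2]
  exact AddSubgroup.zsmul_mem _ h1 _

/-- the embedding of the line -/
def jj (x : ℝ) : Fin 1 → ℝ := fun _ => x

lemma measurable_jj : Measurable jj := by
  unfold jj
  fun_prop

/-- the measure on `Fin 1 → ℝ` -/
noncomputable def muv : Measure (Fin 1 → ℝ) := mu.map jj

instance : IsProbabilityMeasure muv := Measure.isProbabilityMeasure_map measurable_jj.aemeasurable

lemma inv_Rd (v : Fin 1 → ℝ) : (Rd.map (Int.cast : ℤ → ℝ))⁻¹ *ᵥ v = fun i => v i / 12 := by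
  have h1 : Rd.map (Int.cast : ℤ → ℝ) = Matrix.diagonal fun _ => (12 : ℝ) := by
    unfold Rd
    rw [Matrix.diagonal_map (by simp)]
    simp
  have h2 : (Matrix.diagonal fun _ : Fin 1 => (12 : ℝ))⁻¹ =
      Matrix.diagonal fun _ : Fin 1 => (12⁻¹ : ℝ) := by
    apply Matrix.inv_eq_right_inv
    rw [Matrix.diagonal_mul_diagonal]
    simp
  rw [h1, h2]
  funext i
  rw [Matrix.mulVec_diagonal]
  ring

lemma muv_selfsim : muv = ((Bd.card : ℝ≥0∞)⁻¹) • ∑ b ∈ Bd,
    muv.map (fun x => (Rd.map (Int.cast : ℤ → ℝ))⁻¹ *ᵥ (x + fun i => (b i : ℝ))) := by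
  have hcard : Bd.card = 4 := by decide
  have h1 : ∀ b : Fin 1 → ℤ, muv.map (fun x => (Rd.map (Int.cast : ℤ → ℝ))⁻¹ *ᵥ
      (x + fun i => (b i : ℝ))) = (mu.map fun x => (x + (b 0 : ℝ)) / 12).map jj := by
    intro b
    unfold muv
    have e : (fun x : Fin 1 → ℝ => (Rd.map (Int.cast : ℤ → ℝ))⁻¹ *ᵥ (x + fun i => (b i : ℝ))) =
        fun (x : Fin 1 → ℝ) (i : Fin 1) => (x i + b i) / 12 := by
      funext x
      rw [inv_Rd]
      rfl
    rw [e, Measure.map_map (by fun_prop) measurable_jj, Measure.map_map measurable_jj (by fun_prop)]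
    congr 1
    funext x i
    rw [Subsingleton.elim i 0]
    rfl
  simp_rw [h1]
  rw [hcard]
  have h2 : ∑ b ∈ Bd, (mu.map fun x => (x + (b 0 : ℝ)) / 12).map jj =
      ∑ a : Fin 4, (mu.map fun x => (x + dg a) / 12).map jj := by
    unfold Bd
    rw [Finset.sum_insert (by decide), Finset.sum_insert (by decide), Finset.sum_insert (by decide),
      Finset.sum_singleton, Fin.sum_univ_four]
    simp [dg, add_assoc]
  rw [h2]
  conv_lhs => rw [muv, mu_selfsim]
  rw [Measure.map_smul]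
  congr 1
  exact Measure.map_finset_sum measurable_jj.aemeasurable

/-- the frequencies -/
noncomputable def frv (i : Ix) : Fin 1 → ℝ := fun _ => fr i

lemma orth_frv : ∀ l ∈ range frv, ∀ l' ∈ range frv,
    (l = l' → ∫ x, Complex.exp (2 * π * Complex.I * ((∑ i, (l i - l' i) * x i : ℝ) : ℂ)) ∂muv = 1) ∧
    (l ≠ l' → ∫ x, Complex.exp (2 * π * Complex.I * ((∑ i, (l i - l' i) * x i : ℝ) : ℂ)) ∂muv
      = 0) := by
  rintro _ ⟨i, rfl⟩ _ ⟨j, rfl⟩
  have h1 : ∫ x, Complex.exp (2 * π * Complex.I * ((∑ k, (frv i k - frv j k) * x k : ℝ) : ℂ)) ∂muv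
      = F (fr i - fr j) := by
    unfold muv
    rw [integral_map measurable_jj.aemeasurable (by fun_prop : Continuous _).aestronglyMeasurable,
      F_eq]
    refine integral_congr_ae (Filter.Eventually.of_forall fun x => ?_)
    simp only [frv, jj, Finset.univ_unique, Finset.sum_const, Finset.card_singleton, one_smul]
    congr 1
    push_cast
    ring
  rw [h1]
  constructor
  · intro h
    have : fr i = fr j := congrFun h 0
    rw [this, sub_self, F_zero]
  · intro h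
    have : i ≠ j := by
      rintro rfl
      exact h rfl
    exact F_of_W (W_fr this)

lemma complete_frv : ∀ f : (Fin 1 → ℝ) → ℂ, MemLp f 2 muv →
    (∀ l ∈ range frv, ∫ x, f x * Complex.exp (-(2 * π * Complex.I *
      ((∑ i, l i * x i : ℝ) : ℂ))) ∂muv = 0) → f =ᵐ[muv] 0 := by
  intro f hf h
  have hf2 : MemLp (f ∘ jj) 2 mu := (memLp_map_measure_iff hf.1 measurable_jj.aemeasurable).mp hf
  have h2 : (f ∘ jj) =ᵐ[mu] 0 := by
    refine complete hf2 fun i => ?_
    rw [← h (frv i) ⟨i, rfl⟩]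
    unfold muv
    rw [integral_map measurable_jj.aemeasurable]
    · refine integral_congr_ae (Filter.Eventually.of_forall fun x => ?_)
      simp only [frv, jj, Function.comp, Finset.univ_unique, Finset.sum_const,
        Finset.card_singleton, one_smul]
      congr 2
      push_cast
      ring
    · exact hf.1.mul (by fun_prop : Continuous _).aestronglyMeasurable
  have hemb : MeasurableEmbedding jj := (MeasurableEquiv.funUnique (Fin 1) ℝ).symm.measurableEmbedding
  have h3 : ∀ᵐ x ∂(mu.map jj), f x = 0 := by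
    rw [hemb.ae_map_iff]
    exact h2
  exact h3

lemma no_hadamard (L : Finset (Fin 1 → ℤ)) (hL : L.card = 4)
    (h : ∀ l ∈ L, ∀ l' ∈ L,
      (l = l' → ∑ b ∈ Bd, Complex.exp (2 * π * Complex.I *
          ((∑ i, ((Rd.map (Int.cast : ℤ → ℝ))⁻¹ *ᵥ (fun j => (b j : ℝ))) i *
            ((l i : ℝ) - (l' i : ℝ)) : ℝ) : ℂ)) = (Bd.card : ℂ)) ∧
      (l ≠ l' → ∑ b ∈ Bd, Complex.exp (2 * π * Complex.I *
          ((∑ i, ((Rd.map (Int.cast : ℤ → ℝ))⁻¹ *ᵥ (fun j => (b j : ℝ))) i *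
            ((l i : ℝ) - (l' i : ℝ)) : ℝ) : ℂ)) = 0)) : False := by
  have key : ∀ l ∈ L, ∀ l' ∈ L, l ≠ l' → ∃ m : ℤ, l 0 - l' 0 = 12 * m + 6 := by
    intro l hl l' hl' hne
    have h1 := (h l hl l' hl').2 hne
    have h2 : ∀ b : Fin 1 → ℤ, Complex.exp (2 * π * Complex.I *
          ((∑ i, ((Rd.map (Int.cast : ℤ → ℝ))⁻¹ *ᵥ (fun j => (b j : ℝ))) i *
            ((l i : ℝ) - (l' i : ℝ)) : ℝ) : ℂ)) =
        Complex.exp (2 * π * Complex.I * ((b 0 : ℂ) / 12 * ((l 0 : ℂ) - l' 0))) := by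
      intro b
      rw [inv_Rd]
      congr 1
      simp only [Finset.univ_unique, Finset.sum_singleton, Fin.default_eq_zero]
      push_cast
      ring
    simp_rw [h2] at h1
    unfold Bd at h1
    rw [Finset.sum_insert (by decide), Finset.sum_insert (by decide), Finset.sum_insert (by decide),
      Finset.sum_singleton] at h1
    set d : ℤ := l 0 - l' 0 with hd
    have hdc : ((l 0 : ℂ) - l' 0) = (d : ℂ) := by rw [hd]; push_cast; ring
    rw [hdc] at h1
    have h3 : (1 + Complex.exp (2 * π * Complex.I * (1 / 12 * (d : ℂ)))) *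
        (1 + Complex.exp (2 * π * Complex.I * (8 / 12 * (d : ℂ)))) = 0 := by
      rw [← h1, mul_add, add_mul, add_mul, one_mul, mul_one, ← Complex.exp_add]
      push_cast
      rw [zero_div, zero_mul, mul_zero, Complex.exp_zero]
      rw [show 2 * (π : ℂ) * Complex.I * (1 / 12 * d) + 2 * (π : ℂ) * Complex.I * (8 / 12 * d) =
        2 * (π : ℂ) * Complex.I * (9 / 12 * d) by ring]
      ring
    have hpi : (π : ℂ) ≠ 0 := by exact_mod_cast Real.pi_ne_zero
    rcases mul_eq_zero.mp h3 with h4 | h4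
    · have h5 : Complex.exp (2 * π * Complex.I * (1 / 12 * (d : ℂ))) =
          Complex.exp (π * Complex.I) := by
        rw [Complex.exp_pi_mul_I]
        linear_combination h4
      rw [Complex.exp_eq_exp_iff_exists_int] at h5
      obtain ⟨n, hn⟩ := h5
      refine ⟨n, ?_⟩
      have h6 : (d : ℂ) = 12 * n + 6 := by
        have h7 : (π * Complex.I) * ((d : ℂ) - (12 * n + 6)) = 0 := by
          linear_combination 6 * hn
        rcases mul_eq_zero.mp h7 with h8 | h8
        · exact absurd h8 (mul_ne_zero hpi Complex.I_ne_zero)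
        · linear_combination h8
      exact_mod_cast h6
    · exfalso
      have h5 : Complex.exp (2 * π * Complex.I * (8 / 12 * (d : ℂ))) =
          Complex.exp (π * Complex.I) := by
        rw [Complex.exp_pi_mul_I]
        linear_combination h4
      rw [Complex.exp_eq_exp_iff_exists_int] at h5
      obtain ⟨n, hn⟩ := h5
      have h6 : (4 * d : ℂ) = 6 * n + 3 := by
        have h7 : (π * Complex.I) * ((4 * d : ℂ) - (6 * n + 3)) = 0 := by
          linear_combination 3 * hn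
        rcases mul_eq_zero.mp h7 with h8 | h8
        · exact absurd h8 (mul_ne_zero hpi Complex.I_ne_zero)
        · linear_combination h8
      have h9 : 4 * d = 6 * n + 3 := by exact_mod_cast h6
      omega
  have h2 : 2 < L.card := by rw [hL]; norm_num
  obtain ⟨a, ha, b, hb, c, hc, hab, hac, hbc⟩ := Finset.two_lt_card.mp h2
  obtain ⟨m1, h3⟩ := key a ha b hb hab
  obtain ⟨m2, h4⟩ := key b hb c hc hbc
  obtain ⟨m3, h5⟩ := key a ha c hc hac
  omega

/-- The negation of the preceding statement: For expanding integer R and simple digits B with 0 in B, 2 ≤ #B < ∣det R∣ and ℤ[R,B] = ℤ^d: if the self-affine measure has an orthonormal basis of exponentials, then some L in ℤ^d with #L = #B makes (R,B,L) a Hadamard triple. -/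
theorem result :
    ¬ (∀ (d : ℕ), 1 ≤ d → ∀ (R : Matrix (Fin d) (Fin d) ℤ) (B : Finset (Fin d → ℤ)),
    (∀ z : ℂ, (R.map (Int.cast : ℤ → ℂ)).charpoly.IsRoot z → 1 < ‖z‖) →
    (∀ b ∈ B, ∀ b' ∈ B, b ≠ b' → ¬ ∃ v : Fin d → ℤ, R *ᵥ v = b - b') →
    2 ≤ B.card → (B.card : ℤ) < |R.det| → (0 : Fin d → ℤ) ∈ B →
    AddSubgroup.closure {v : Fin d → ℤ | ∃ k : ℕ, ∃ b ∈ B, v = (R ^ k) *ᵥ b} = ⊤ →
    ∀ μ : Measure (Fin d → ℝ), IsProbabilityMeasure μ →
      μ = ((B.card : ℝ≥0∞)⁻¹) • ∑ b ∈ B,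
            μ.map (fun x => (R.map (Int.cast : ℤ → ℝ))⁻¹ *ᵥ (x + fun i => (b i : ℝ))) →
      (∃ Λ : Set (Fin d → ℝ),
        (∀ l ∈ Λ, ∀ l' ∈ Λ,
          (l = l' → ∫ x, Complex.exp (2 * π * Complex.I * ((∑ i, (l i - l' i) * x i : ℝ) : ℂ)) ∂μ = 1) ∧
          (l ≠ l' → ∫ x, Complex.exp (2 * π * Complex.I * ((∑ i, (l i - l' i) * x i : ℝ) : ℂ)) ∂μ = 0)) ∧
        (∀ f : (Fin d → ℝ) → ℂ, MemLp f 2 μ →
          (∀ l ∈ Λ, ∫ x, f x * Complex.exp (-(2 * π * Complex.I * ((∑ i, l i * x i : ℝ) : ℂ))) ∂μ = 0) →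
          f =ᵐ[μ] 0)) →
      ∃ L : Finset (Fin d → ℤ), L.card = B.card ∧
        ∀ l ∈ L, ∀ l' ∈ L,
          (l = l' → ∑ b ∈ B, Complex.exp (2 * π * Complex.I *
              ((∑ i, ((R.map (Int.cast : ℤ → ℝ))⁻¹ *ᵥ (fun j => (b j : ℝ))) i * ((l i : ℝ) - (l' i : ℝ)) : ℝ) : ℂ))
              = (B.card : ℂ)) ∧
          (l ≠ l' → ∑ b ∈ B, Complex.exp (2 * π * Complex.I *
              ((∑ i, ((R.map (Int.cast : ℤ → ℝ))⁻¹ *ᵥ (fun j => (b j : ℝ))) i * ((l i : ℝ) - (l' i : ℝ)) : ℝ) : ℂ))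
              = 0)) := by
  intro H
  have hcard : Bd.card = 4 := by decide
  obtain ⟨L, hL, hL2⟩ := H 1 le_rfl Rd Bd root_cond simple_digits (by rw [hcard]; norm_num)
    (by rw [hcard, det_Rd]; norm_num) (by decide) closure_top muv inferInstance muv_selfsim
    ⟨range frv, orth_frv, complete_frv⟩
  exact no_hadamard L (by rw [hL, hcard]) hL2

end Pool.Agent.S04820
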