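import Pool.Statements.S04994
import Pool.Agent.J6H38.C0Sat.Operator
import Pool.Agent.J6H38.C0Sat.Abstract

set_option autoImplicit false
open scoped ZeroAtInfty
open Pool Pool.MP_6f388c_an

namespace Pool.Agent.S04994

/-- The negation of the preceding statement: For every countable compact Hausdorff K and every real Banach space X that is a quotient of C(K), each infinite-dimensional closed subspace of X contains an isomorphic copy of c_0. -/
theorem result :
    ¬ (∀ (K : Type) [TopologicalSpace K] [CompactSpace K] [T2Space K] [Countable K]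
      (X : Type) [NormedAddCommGroup X] [NormedSpace ℝ X] [CompleteSpace X],
      (∃ T : C(K, ℝ) →L[ℝ] X, Function.Surjective T) →
      ∀ Y : Submodule ℝ X, IsClosed (Y : Set X) → ¬ FiniteDimensional ℝ Y →
        ∃ S : C₀(ℕ, ℝ) →L[ℝ] X, (∀ f, S f ∈ Y) ∧
          ∃ c : ℝ, 0 < c ∧ ∀ f, c * ‖f‖ ≤ ‖S f‖) := by
  intro h
  obtain ⟨X, i1, i2, i3, hT, Y, hY, hfin, hno⟩ :=
    Pool.Agent.J6H38.C0Sat.main_abstract Pool.Agent.J6H38.C0Sat.J Pool.Agent.J6H38.C0Sat.iE
      (δ := 6) (C := 1) (by norm_num) one_pos Pool.Agent.J6H38.C0Sat.iE_lower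
      Pool.Agent.J6H38.C0Sat.D Pool.Agent.J6H38.C0Sat.dense_D
      (fun y hy => Pool.Agent.J6H38.C0Sat.lift_D y hy)
      Pool.Agent.J6H38.C0Sat.not_finiteDimensional
  exact hno (h Pool.Agent.J6H38.C0Sat.K X hT Y hY hfin)

end Pool.Agent.S04994
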