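import Pool.Statements.S05418
import Pool.Agent.J6H20.RL.MainL
import Pool.Agent.J6H20.RL.Green

set_option autoImplicit false
open MeasureTheory
open Pool Pool.MP_92d530_an

namespace Pool.Agent.S05418

open Pool.Agent.J6H20.RL in
/-- The weak equation for a classical solution. -/
theorem weak_eq {u φ : EuclideanSpace ℝ (Fin 4) → ℝ} (hu : ContDiff ℝ 2 u) (hle : ∀ x, |lap u x| ≤ |u x|) (hφ : ContDiff ℝ 2 φ)
    (hc : HasCompactSupport φ) :
    ∫ x, (-(u x * ∑ i : Fin 4, iteratedFDeriv ℝ 2 φ x (fun _ => EuclideanSpace.single i (1 : ℝ))) + lap u x / u x * u x * φ x) = 0 := by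
  rw [← green hu hφ hc]
  refine integral_congr_ae (Filter.Eventually.of_forall fun x => ?_)
  have h1 : ∑ i : Fin 4, iteratedFDeriv ℝ 2 φ x (fun _ => EuclideanSpace.single i (1 : ℝ)) = lap φ x := by
    simp only [lap]
    exact Finset.sum_congr rfl fun k _ => dd2_eq hφ x (eb k)
  have h2 : lap u x / u x * u x = lap u x := by
    by_cases h : u x = 0
    · have h3 := hle x
      rw [h, abs_zero] at h3
      rw [h, abs_nonpos_iff.1 h3]; simp
    · field_simp
  simp only [h1, h2]

/-- The negation of the preceding statement: In every dimension d≥1 and for every bound M, there is C>0 such that any real weak solution of −Δu+Vu=0 with real ∣V∣≤M and ∣u(x)∣≤e^{−C∣x∣} vanishes almost everywhere. -/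
theorem result :
    ¬ (∀ d : ℕ, 1 ≤ d → ∀ M : ℝ, 0 < M → ∃ C : ℝ, 0 < C ∧
      ∀ V u : EuclideanSpace ℝ (Fin d) → ℝ, Measurable V → Measurable u →
        (∀ x, |V x| ≤ M) →
        (∀ x, |u x| ≤ Real.exp (-(C * ‖x‖))) →
        (∀ φ : EuclideanSpace ℝ (Fin d) → ℝ, ContDiff ℝ 2 φ → HasCompactSupport φ →
          ∫ x, (-(u x * ∑ i : Fin d,
                  iteratedFDeriv ℝ 2 φ x (fun _ => EuclideanSpace.single i (1 : ℝ)))
                + V x * u x * φ x) = 0) →
        ∀ᵐ x ∂(volume : Measure (EuclideanSpace ℝ (Fin d))), u x = 0) := by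
  intro H
  obtain ⟨C, hC, h⟩ := H 4 (by norm_num) 1 one_pos
  obtain ⟨u, K, hK, hsm, hle, hbd, h0⟩ := J6H20.RL.exists_all (C := max C 1) (le_max_right _ _)
  have hu : ContDiff ℝ 2 u := contDiff_iff_contDiffAt.2 fun x => by exact_mod_cast (contDiffAt_infty.1 (hsm x)) 2
  set v : EuclideanSpace ℝ (Fin 4) → ℝ := fun x => K⁻¹ * u x with hv
  have hvs : ContDiff ℝ 2 v := contDiff_const.mul hu
  have hlv : ∀ x, J6H20.RL.lap v x = K⁻¹ * J6H20.RL.lap u x := fun x => J6H20.RL.lap_cmul u K⁻¹ x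
  have hvle : ∀ x, |J6H20.RL.lap v x| ≤ |v x| := by
    intro x
    rw [hlv, hv, abs_mul, abs_mul]
    exact mul_le_mul_of_nonneg_left (hle x) (abs_nonneg _)
  have hvb : ∀ x, |v x| ≤ Real.exp (-(C * ‖x‖)) := by
    intro x
    have h1 := hbd x
    rw [hv, abs_mul, abs_of_pos (inv_pos.2 hK)]
    have h2 := mul_le_mul_of_nonneg_left h1 (inv_pos.2 hK).le
    rw [← mul_assoc, inv_mul_cancel₀ hK.ne', one_mul] at h2
    refine h2.trans (Real.exp_le_exp.2 ?_)
    have := mul_le_mul_of_nonneg_right (le_max_left C 1) (norm_nonneg x)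
    linarith
  have hcont : Continuous v := hvs.continuous
  have hlc : Continuous (J6H20.RL.lap v) := J6H20.RL.lap_cont hvs
  have key := h (fun x => J6H20.RL.lap v x / v x) v (hlc.measurable.div hcont.measurable) hcont.measurable ?_ hvb
    (fun φ hφ hc => weak_eq hvs hvle hφ hc)
  · have h1 : v =ᵐ[volume] fun _ => 0 := key
    have h2 : v = fun _ => 0 := (hcont.ae_eq_iff_eq volume continuous_const).1 h1
    have h3 : v 0 = 0 := congrFun h2 0
    rcases mul_eq_zero.1 h3 with h4 | h4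
    · exact inv_ne_zero hK.ne' h4
    · exact h0 h4
  · intro x
    rw [abs_div]
    exact div_le_one_of_le₀ (hvle x) (abs_nonneg _)

end Pool.Agent.S05418
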