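import Pool.Statements.S07160

set_option autoImplicit false
open Pool Pool.MP_0cd801_co

namespace Pool.Agent.S07160

/-- Out-neighbours in the counterexample: a `3`-diregular oriented graph on `13 = 4 * 3 + 1`
vertices without a Hamilton cycle. -/
def nbrs : Fin 13 → List (Fin 13)
  | 0 => [4, 10, 12]
  | 1 => [3, 5, 10]
  | 2 => [1, 8, 11]
  | 3 => [4, 6, 11]
  | 4 => [2, 7, 10]
  | 5 => [0, 6, 8]
  | 6 => [0, 1, 4]
  | 7 => [1, 6, 9]
  | 8 => [0, 9, 11]
  | 9 => [2, 5, 12]
  | 10 => [3, 7, 12]
  | 11 => [5, 7, 9]
  | 12 => [2, 3, 8]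

/-- Exhaustive search: can the partial path with visited vertices `vis`, ending in `v`, be extended
by `k` new vertices and then closed up to the start vertex `0`? -/
def search : ℕ → Fin 13 → List (Fin 13) → Bool
  | 0, v, _ => (nbrs v).contains 0
  | k + 1, v, vis => (nbrs v).any fun w => !(vis.contains w) && search k w (w :: vis)

lemma search_false : search 12 0 [0] = false := by decide +kernel

/-- A Hamilton cycle `g 0 = 0, g 1, …, g 12` makes the search succeed. -/
lemma search_true (g : ℕ → Fin 13) (hinj : ∀ i j, i < 13 → j < 13 → g i = g j → i = j)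
    (h13 : g 13 = 0) (hadj : ∀ i, i < 13 → g (i + 1) ∈ nbrs (g i)) :
    ∀ k, k ≤ 12 → ∀ vis : List (Fin 13), (∀ x ∈ vis, ∃ i, i ≤ 12 - k ∧ g i = x) →
      search k (g (12 - k)) vis = true := by
  intro k
  induction k with
  | zero =>
    intro _ vis _
    simp only [search, Nat.sub_zero, List.contains_iff_mem]
    have := hadj 12 (by norm_num)
    rwa [h13] at this
  | succ k ih =>
    intro hk vis hvis
    simp only [search, List.any_eq_true, Bool.and_eq_true, Bool.not_eq_true']
    have e : 12 - (k + 1) + 1 = 12 - k := by omega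
    refine ⟨g (12 - k), ?_, ?_, ?_⟩
    · rw [← e]
      exact hadj _ (by omega)
    · rw [Bool.eq_false_iff]
      intro hc
      rw [List.contains_iff_mem] at hc
      obtain ⟨i, hi, hgi⟩ := hvis _ hc
      have := hinj i (12 - k) (by omega) (by omega) hgi
      omega
    · apply ih (by omega)
      intro x hx
      rcases List.mem_cons.mp hx with rfl | hx
      · exact ⟨12 - k, le_rfl, rfl⟩
      · obtain ⟨i, hi, hgi⟩ := hvis x hx
        exact ⟨i, by omega, hgi⟩

/-- The counterexample as a digraph. -/
def G : Digraph (Fin 13) := ⟨fun u v => v ∈ nbrs u⟩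

instance : ∀ u v : Fin 13, Decidable (G.Adj u v) := fun u v =>
  inferInstanceAs (Decidable (v ∈ nbrs u))

/-- The negation of the preceding statement: For every d > 2 and n ≤ 4d+1, every oriented graph on n vertices in which each vertex has in-degree d and out-degree d has a directed Hamilton cycle, i.e. a cyclic ordering of all n vertices with an arc from each vertex to the next. -/
theorem result :
    ¬ (∀ (d n : ℕ), 2 < d → n ≤ 4 * d + 1 →
      ∀ G : Digraph (Fin n),
        (∀ u v : Fin n, G.Adj u v → ¬ G.Adj v u) →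
        (∀ v : Fin n, Set.ncard {u : Fin n | G.Adj v u} = d) →
        (∀ v : Fin n, Set.ncard {u : Fin n | G.Adj u v} = d) →
        ∃ f : Fin n → Fin n, Function.Bijective f ∧
          ∀ i j : Fin n, j.val = (i.val + 1) % n → G.Adj (f i) (f j)) := by
  intro H
  obtain ⟨f, hf, hadj⟩ := H 3 13 (by norm_num) (by norm_num) G (by decide)
    (by
      intro v
      rw [Set.ncard_eq_toFinset_card']
      revert v
      decide)
    (by
      intro v
      rw [Set.ncard_eq_toFinset_card']
      revert v
      decide)
  obtain ⟨c, hc⟩ := hf.2 0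
  set g : ℕ → Fin 13 := fun i => f ⟨(c.val + i) % 13, Nat.mod_lt _ (by norm_num)⟩ with hg
  have h0 : g 0 = 0 := by
    refine (congrArg f (Fin.ext ?_)).trans hc
    exact Nat.mod_eq_of_lt c.isLt
  have h13 : g 13 = 0 := by
    refine (congrArg f (Fin.ext ?_)).trans hc
    exact (Nat.add_mod_right _ _).trans (Nat.mod_eq_of_lt c.isLt)
  have hinj : ∀ i j, i < 13 → j < 13 → g i = g j → i = j := by
    intro i j hi hj hij
    have h1 := hf.1 hij
    rw [Fin.mk.injEq] at h1
    have hcl := c.isLt
    omega
  have hadj' : ∀ i, i < 13 → g (i + 1) ∈ nbrs (g i) := by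
    intro i _
    have := hadj ⟨(c.val + i) % 13, Nat.mod_lt _ (by norm_num)⟩
      ⟨(c.val + (i + 1)) % 13, Nat.mod_lt _ (by norm_num)⟩ (by simp only; omega)
    exact this
  have h1 := search_true g hinj h13 hadj' 12 le_rfl [0] (by
    intro x hx
    rw [List.mem_singleton] at hx
    exact ⟨0, by omega, by rw [hx, h0]⟩)
  simp only [Nat.sub_self, h0, search_false] at h1
  exact Bool.noConfusion h1

end Pool.Agent.S07160
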