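import Pool.Statements.S07740
import Pool.Agent.J6H66.Queens.Main

set_option autoImplicit false
open Pool Pool.MP_27266b_co

namespace Pool.Agent.S07740

/-- The negation of the preceding statement: There is a board size n other than 3 and 11 for which the minimum number of queens dominating the n×n board equals (n−1)/2. -/
theorem result :
    ¬ (∃ n : ℕ, n ≠ 3 ∧ n ≠ 11 ∧
      2 * sInf {k : ℕ | ∃ D : Finset (Fin n × Fin n), D.card = k ∧
        ∀ p : Fin n × Fin n, ∃ q ∈ D,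
          p.1 = q.1 ∨ p.2 = q.2 ∨
          (p.1.val : ℤ) - (p.2.val : ℤ) = (q.1.val : ℤ) - (q.2.val : ℤ) ∨
          p.1.val + p.2.val = q.1.val + q.2.val} + 1 = n) := by
  rintro ⟨n, h3, h11, hn⟩
  have hne : {k : ℕ | ∃ D : Finset (Fin n × Fin n), D.card = k ∧
        ∀ p : Fin n × Fin n, ∃ q ∈ D,
          p.1 = q.1 ∨ p.2 = q.2 ∨
          (p.1.val : ℤ) - (p.2.val : ℤ) = (q.1.val : ℤ) - (q.2.val : ℤ) ∨
          p.1.val + p.2.val = q.1.val + q.2.val}.Nonempty :=
    ⟨_, Finset.univ, rfl, fun p => ⟨p, Finset.mem_univ _, Or.inl rfl⟩⟩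
  obtain ⟨D, hD, hdom⟩ := Nat.sInf_mem hne
  rw [← hD] at hn
  rcases Pool.Agent.J6H66.Queens.main n D hn hdom with h | h
  · exact h3 h
  · exact h11 h

end Pool.Agent.S07740
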