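import Pool.Statements.S09613
import Pool.Agent.J6H51.SqFree.Insert

set_option autoImplicit false
open Pool Pool.MP_78b1ee_co

namespace Pool.Agent.S09613

open Pool.Agent.J6H51.SqFree

/-- For every N there is a list of distinct rationals of length at least N with no two adjacent order-isomorphic blocks of length at least 2, such that inserting any new value at any position creates such a pair. -/
theorem result :
    ∀ N : ℕ, ∃ w : List ℚ, N ≤ w.length ∧ w.Nodup ∧
      (¬ ∃ i ℓ : ℕ, 2 ≤ ℓ ∧ i + 2 * ℓ ≤ w.length ∧
          ∀ a < ℓ, ∀ b < ℓ,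
            (w.getD (i + a) 0 < w.getD (i + b) 0 ↔
              w.getD (i + ℓ + a) 0 < w.getD (i + ℓ + b) 0)) ∧
      ∀ p : ℕ, p ≤ w.length → ∀ x : ℚ, x ∉ w →
        ∃ i ℓ : ℕ, 2 ≤ ℓ ∧ i + 2 * ℓ ≤ w.length + 1 ∧
          ∀ a < ℓ, ∀ b < ℓ,
            ((w.take p ++ x :: w.drop p).getD (i + a) 0 <
                (w.take p ++ x :: w.drop p).getD (i + b) 0 ↔
              (w.take p ++ x :: w.drop p).getD (i + ℓ + a) 0 <
                (w.take p ++ x :: w.drop p).getD (i + ℓ + b) 0) := by
  intro N
  obtain ⟨u, hu⟩ := exists_u (N + 7)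
  have hb := pow_big N
  have hN : N + 300 ≤ 2 ^ (N + 7 + 1) + 44 := by
    have h1 : N < 2 ^ N := Nat.lt_two_pow_self
    have h2 : 2 ^ (N + 7 + 1) = 256 * 2 ^ N := by ring
    omega
  obtain ⟨n, hn⟩ : ∃ n, n + 11 = 2 ^ (N + 7 + 1) := ⟨2 ^ (N + 7 + 1) - 11, by omega⟩
  have hlen : ((List.range n).map u).length = n := by simp
  have hget : ∀ i < n, ((List.range n).map u).getD i 0 = u i := by
    intro i hi
    rw [List.getD_eq_getElem _ _ (by rw [hlen]; exact hi)]
    simp
  have hne : ∀ i j, i ≠ j → u i ≠ u j := by
    intro i j hij he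
    have h1 : ¬ u i < u j := by rw [he]; exact lt_irrefl _
    have h2 : ¬ u j < u i := by rw [he]; exact lt_irrefl _
    rw [hu] at h1 h2
    unfold R at h1 h2
    push Not at h1 h2
    have h3 : H (N + 7) i = H (N + 7) j := le_antisymm h2.1 h1.1
    have h4 := h1.2 h3
    have h5 := h2.2 h3.symm
    omega
  refine ⟨(List.range n).map u, ?_, ?_, ?_, ?_⟩
  · rw [hlen]; omega
  · apply List.Nodup.map _ List.nodup_range
    intro i j hij
    by_contra h
    exact hne i j h hij
  · rw [hlen]
    rintro ⟨i, l, hl, hil, hsq⟩
    apply noSq N i l hl (by omega)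
    intro a ha b hb'
    have := hsq a ha b hb'
    rw [hget _ (by omega), hget _ (by omega), hget _ (by omega), hget _ (by omega)] at this
    rw [← hu, ← hu]
    exact this
  · rw [hlen]
    intro p hp x hx
    have hxu : ∀ i < n, x ≠ u i := by
      intro i hi he
      apply hx
      rw [he]
      exact List.mem_map.2 ⟨i, List.mem_range.2 hi, rfl⟩
    suffices hs : ∃ s l, 2 ≤ l ∧ s + 2 * l ≤ n + 1 ∧ Sq (ins u p x) s l by
      obtain ⟨s, l, h2, h3, h4⟩ := hs
      refine ⟨s, l, h2, h3, ?_⟩
      intro a ha b hb'
      rw [list_ins n u p hp x _ (by omega), list_ins n u p hp x _ (by omega),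
        list_ins n u p hp x _ (by omega), list_ins n u p hp x _ (by omega)]
      exact h4 a ha b hb'
    by_cases h1 : p < 3
    · obtain ⟨s, l, h2, h3, h4⟩ := left_insert u
        (fun i hi j hj => by rw [hu, R_window N i j (by omega) (by omega)]) x
        (fun i hi => hxu i (by omega)) p h1
      exact ⟨s, l, h2, by omega, h4⟩
    · by_cases h2 : p + 3 ≤ n
      · obtain ⟨s, h3, h4⟩ := mid_insert u n
          (fun i hi => by rw [hu, R_step N i (by omega)])
          (fun i hi => hne _ _ (by omega)) x hxu p (by omega) h2
        exact ⟨s, 2, le_refl _, by omega, h4⟩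
      · obtain ⟨s, l, h3, h4, h5⟩ := left_insert (fun i => - u (n - 1 - i))
          (fun i hi j hj => by
            rw [neg_lt_neg_iff, hu,
              show n - 1 - j = 2 ^ (N + 7 + 1) - 12 - j by omega,
              show n - 1 - i = 2 ^ (N + 7 + 1) - 12 - i by omega,
              R_mirror (N + 7) i j (by omega) (by omega) (by omega),
              R_window N i j (by omega) (by omega)]) (-x)
          (fun i hi he => hxu (n - 1 - i) (by omega) (neg_injective he)) (n - p) (by omega)
        have hz : ∀ i < n + 1, ins u p x i =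
            - ins (fun i => - u (n - 1 - i)) (n - p) (-x) (n - i) := by
          intro i hi
          unfold ins
          by_cases g1 : i < p
          · rw [if_pos g1, if_neg (by omega), if_neg (by omega), neg_neg]
            congr 1
            omega
          · rw [if_neg g1]
            by_cases g2 : i = p
            · rw [if_pos g2, if_neg (by omega), if_pos (by omega), neg_neg]
            · rw [if_neg g2, if_pos (by omega), neg_neg]
              congr 1
              omega
        refine ⟨n + 1 - s - 2 * l, l, h3, by omega, ?_⟩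
        intro a ha b hb'
        have e := h5 (l - 1 - b) (by omega) (l - 1 - a) (by omega)
        rw [hz _ (by omega), hz _ (by omega), hz _ (by omega), hz _ (by omega),
          neg_lt_neg_iff, neg_lt_neg_iff]
        rw [show n - (n + 1 - s - 2 * l + a) = s + l + (l - 1 - a) by omega,
          show n - (n + 1 - s - 2 * l + b) = s + l + (l - 1 - b) by omega,
          show n - (n + 1 - s - 2 * l + l + a) = s + (l - 1 - a) by omega,
          show n - (n + 1 - s - 2 * l + l + b) = s + (l - 1 - b) by omega]
        exact e.symm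

end Pool.Agent.S09613
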