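import Pool.Statements.S09798

set_option autoImplicit false
open Pool Pool.MP_82152b_co

namespace Pool.Agent.S09798

/-! The counterexample is `k = 2` and `H = K_{2,3}` plus an edge inside the part of size three.
The only vertex of degree at most two of `H` is the vertex `4`, so in a 2-degenerate graph a copy of
`H` is determined, up to boundedly many choices, by the image of `4`; hence there are only `O(n)`
copies.  On the other hand `{4}` and `{2, 3}` are the flaps of two independent 2-separations. -/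

/-- adjacency of `K_{2,3}` plus an edge: `0, 1` are adjacent to `2, 3, 4`, and `2` to `3` -/
def adjB (u v : Fin 5) : Bool :=
  (u.val < 2 && 2 ≤ v.val) || (v.val < 2 && 2 ≤ u.val) || (u.val = 2 && v.val = 3) ||
    (u.val = 3 && v.val = 2)

/-- `K_{2,3}` plus an edge -/
def H : SimpleGraph (Fin 5) where
  Adj u v := adjB u v = true
  symm := by
    constructor
    intro u v h
    revert u v
    decide
  loopless := by
    constructor
    intro u
    revert u
    decide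

instance : DecidableRel H.Adj := fun u v => inferInstanceAs (Decidable (adjB u v = true))

theorem H_deg : ∀ S : Finset (Fin 5), S.Nonempty →
    ∃ v ∈ S, {w : Fin 5 | w ∈ S ∧ H.Adj v w}.ncard ≤ 2 := by
  have h : ∀ S : Finset (Fin 5), S.Nonempty → ∃ v ∈ S, (S.filter (fun w => H.Adj v w)).card ≤ 2 := by
    decide
  intro S hS
  obtain ⟨v, hv, h2⟩ := h S hS
  refine ⟨v, hv, ?_⟩
  have : {w : Fin 5 | w ∈ S ∧ H.Adj v w} = ((S.filter (fun w => H.Adj v w) : Finset (Fin 5)) : Set (Fin 5)) := by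
    ext w; simp
  rw [this, Set.ncard_coe_finset]
  exact h2

/-- the subgraph of `H` with a given vertex set and all edges of `H` inside it meeting `X` -/
def sub (W X : Finset (Fin 5)) : H.Subgraph where
  verts := (W : Set (Fin 5))
  Adj u v := H.Adj u v ∧ u ∈ W ∧ v ∈ W ∧ (u ∈ X ∨ v ∈ X)
  adj_sub h := h.1
  edge_vert h := h.2.1
  symm := by
    constructor
    rintro u v ⟨h1, h2, h3, h4⟩
    exact ⟨h1.symm, h3, h2, h4.symm⟩

theorem two_mem : (2 : ℕ) ∈ {m : ℕ | ∃ A B : Fin m → H.Subgraph,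
            (∀ i, A i ⊔ B i = ⊤ ∧ (∀ u v, (A i).Adj u v → ¬ (B i).Adj u v) ∧
              (∃ v, v ∈ (A i).verts ∧ v ∉ (B i).verts) ∧
              (∃ v, v ∈ (B i).verts ∧ v ∉ (A i).verts) ∧
              ((A i).verts ∩ (B i).verts).ncard ≤ 2) ∧
            ∀ i j, i ≠ j →
              (∀ u v, (A i).Adj u v → ¬ (A j).Adj u v) ∧
              ∀ v, v ∈ (A i).verts → v ∉ (B i).verts → ¬ (v ∈ (A j).verts ∧ v ∉ (B j).verts)} := by
  let P : H.Subgraph := sub {0, 1, 4} {4}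
  let Q : H.Subgraph := sub {0, 1, 2, 3} {2, 3}
  have hPQ : P ⊔ Q = ⊤ := by
    ext u v
    · simp only [SimpleGraph.Subgraph.verts_sup, SimpleGraph.Subgraph.verts_top, Set.mem_univ, iff_true]
      change u ∈ (({0, 1, 4} : Finset (Fin 5)) : Set (Fin 5)) ∪ (({0, 1, 2, 3} : Finset (Fin 5)) : Set (Fin 5))
      rw [← Finset.coe_union, Finset.mem_coe]
      revert u; decide
    · simp only [SimpleGraph.Subgraph.sup_adj, SimpleGraph.Subgraph.top_adj]
      change ((H.Adj u v ∧ u ∈ ({0, 1, 4} : Finset (Fin 5)) ∧ v ∈ ({0, 1, 4} : Finset (Fin 5)) ∧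
        (u ∈ ({4} : Finset (Fin 5)) ∨ v ∈ ({4} : Finset (Fin 5)))) ∨
        (H.Adj u v ∧ u ∈ ({0, 1, 2, 3} : Finset (Fin 5)) ∧ v ∈ ({0, 1, 2, 3} : Finset (Fin 5)) ∧
        (u ∈ ({2, 3} : Finset (Fin 5)) ∨ v ∈ ({2, 3} : Finset (Fin 5))))) ↔ H.Adj u v
      revert u v; decide
  have hdis : ∀ u v, P.Adj u v → ¬ Q.Adj u v := by
    intro u v
    change (H.Adj u v ∧ u ∈ ({0, 1, 4} : Finset (Fin 5)) ∧ v ∈ ({0, 1, 4} : Finset (Fin 5)) ∧
        (u ∈ ({4} : Finset (Fin 5)) ∨ v ∈ ({4} : Finset (Fin 5)))) →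
        ¬ (H.Adj u v ∧ u ∈ ({0, 1, 2, 3} : Finset (Fin 5)) ∧ v ∈ ({0, 1, 2, 3} : Finset (Fin 5)) ∧
        (u ∈ ({2, 3} : Finset (Fin 5)) ∨ v ∈ ({2, 3} : Finset (Fin 5))))
    revert u v; decide
  have hmP : ∀ v, v ∈ P.verts ↔ v ∈ ({0, 1, 4} : Finset (Fin 5)) := fun v => Iff.rfl
  have hmQ : ∀ v, v ∈ Q.verts ↔ v ∈ ({0, 1, 2, 3} : Finset (Fin 5)) := fun v => Iff.rfl
  have hcard : (P.verts ∩ Q.verts).ncard ≤ 2 := by
    have : P.verts ∩ Q.verts = (({0, 1} : Finset (Fin 5)) : Set (Fin 5)) := by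
      ext v
      rw [Set.mem_inter_iff, hmP, hmQ, Finset.mem_coe]
      revert v; decide
    rw [this, Set.ncard_coe_finset]
    decide
  refine ⟨![P, Q], ![Q, P], ?_, ?_⟩
  · intro i
    fin_cases i
    · refine ⟨hPQ, hdis, ⟨4, ?_, ?_⟩, ⟨2, ?_, ?_⟩, hcard⟩
      · exact (hmP 4).2 (by decide)
      · exact fun h => absurd ((hmQ 4).1 h) (by decide)
      · exact (hmQ 2).2 (by decide)
      · exact fun h => absurd ((hmP 2).1 h) (by decide)
    · refine ⟨(sup_comm Q P).trans hPQ, fun u v h1 h2 => hdis u v h2 h1, ⟨2, ?_, ?_⟩, ⟨4, ?_, ?_⟩, ?_⟩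
      · exact (hmQ 2).2 (by decide)
      · exact fun h => absurd ((hmP 2).1 h) (by decide)
      · exact (hmP 4).2 (by decide)
      · exact fun h => absurd ((hmQ 4).1 h) (by decide)
      · change (Q.verts ∩ P.verts).ncard ≤ 2
        rw [Set.inter_comm]; exact hcard
  · intro i j hij
    fin_cases i <;> fin_cases j
    · exact absurd rfl hij
    · exact ⟨hdis, fun v h1 h2 h3 => h2 h3.1⟩
    · exact ⟨fun u v h1 h2 => hdis u v h2 h1, fun v h1 h2 h3 => h2 h3.1⟩
    · exact absurd rfl hij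

/-- a 2-degenerate finite graph has an ordering with at most two smaller neighbours everywhere -/
theorem exists_rank {n : ℕ} (G : SimpleGraph (Fin n))
    (hG : ∀ S : Finset (Fin n), S.Nonempty → ∃ v ∈ S, {w : Fin n | w ∈ S ∧ G.Adj v w}.ncard ≤ 2)
    (S : Finset (Fin n)) :
    ∃ r : Fin n → ℕ, Set.InjOn r S ∧ ∀ v ∈ S, {w : Fin n | w ∈ S ∧ G.Adj v w ∧ r w < r v}.ncard ≤ 2 := by
  classical
  induction S using Finset.strongInduction with
  | _ S ih =>
    rcases S.eq_empty_or_nonempty with rfl | hS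
    · exact ⟨fun _ => 0, by simp, by simp⟩
    · obtain ⟨v, hv, h2⟩ := hG S hS
      obtain ⟨r, hr1, hr2⟩ := ih (S.erase v) (Finset.erase_ssubset hv)
      let M := S.sup r + 1
      have hM : ∀ w ∈ S, r w < M := fun w hw => Nat.lt_succ_of_le (Finset.le_sup hw)
      refine ⟨Function.update r v M, ?_, ?_⟩
      · intro x hx y hy hxy
        rw [Finset.mem_coe] at hx hy
        by_cases hxv : x = v <;> by_cases hyv : y = v
        · rw [hxv, hyv]
        · subst hxv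
          rw [Function.update_self, Function.update_of_ne hyv] at hxy
          exact absurd (hM y hy) (by omega)
        · subst hyv
          rw [Function.update_self, Function.update_of_ne hxv] at hxy
          exact absurd (hM x hx) (by omega)
        · rw [Function.update_of_ne hxv, Function.update_of_ne hyv] at hxy
          exact hr1 (by simp [hxv, hx]) (by simp [hyv, hy]) hxy
      · intro x hx
        by_cases hxv : x = v
        · subst hxv
          refine le_trans (Set.ncard_le_ncard ?_ (Set.toFinite _)) h2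
          rintro w ⟨hw1, hw2, -⟩
          exact ⟨hw1, hw2⟩
        · refine le_trans (Set.ncard_le_ncard ?_ (Set.toFinite _)) (hr2 x (by simp [hxv, hx]))
          rintro w ⟨hw1, hw2, hw3⟩
          have hwv : w ≠ v := by
            rintro rfl
            rw [Function.update_self, Function.update_of_ne hxv] at hw3
            have := hM x hx
            omega
          rw [Function.update_of_ne hxv, Function.update_of_ne hwv] at hw3
          exact ⟨by simp [hwv, hw1], hw2, hw3⟩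

/-- there are at most `7 ^ 5 * n` copies of `H` in a 2-degenerate graph with `n` vertices -/
theorem count_le {n : ℕ} (G : SimpleGraph (Fin n))
    (hG : ∀ S : Finset (Fin n), S.Nonempty → ∃ v ∈ S, {w : Fin n | w ∈ S ∧ G.Adj v w}.ncard ≤ 2) :
    {φ : Fin 5 ↪ Fin n | ∀ u v, H.Adj u v → G.Adj (φ u) (φ v)}.ncard ≤ 7 ^ 5 * n := by
  classical
  obtain ⟨r, hr1, hr2⟩ := exists_rank G hG Finset.univ
  have hinj : Function.Injective r := by
    intro x y h
    exact hr1 (by simp) (by simp) h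
  let bk : Fin n → Finset (Fin n) := fun v => Finset.univ.filter (fun w => G.Adj v w ∧ r w < r v)
  have hbk : ∀ v, (bk v).card ≤ 2 := by
    intro v
    have h := hr2 v (Finset.mem_univ v)
    have h3 : {w : Fin n | w ∈ (Finset.univ : Finset (Fin n)) ∧ G.Adj v w ∧ r w < r v} = (bk v : Set (Fin n)) := by
      ext w; simp [bk]
    rw [h3, Set.ncard_coe_finset] at h
    exact h
  let T : Fin n → Finset (Fin n) := fun x => insert x (bk x ∪ (bk x).biUnion bk)
  have hT : ∀ x, (T x).card ≤ 7 := by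
    intro x
    have h1 : (T x).card ≤ (bk x ∪ (bk x).biUnion bk).card + 1 := Finset.card_insert_le _ _
    have h2 : (bk x ∪ (bk x).biUnion bk).card ≤ (bk x).card + ((bk x).biUnion bk).card :=
      Finset.card_union_le _ _
    have h3 : ((bk x).biUnion bk).card ≤ (bk x).card * 2 :=
      Finset.card_biUnion_le_card_mul _ _ _ (fun y _ => hbk y)
    have h4 := hbk x
    omega
  -- for an embedding, a set of vertices `W` has a largest element for `r`, and its neighbours in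
  -- `W` are backward neighbours
  have key : ∀ φ : Fin 5 ↪ Fin n, (∀ u v, H.Adj u v → G.Adj (φ u) (φ v)) →
      ∀ W : Finset (Fin 5), W.Nonempty → ∃ i ∈ W, (W.filter (fun j => H.Adj i j)).card ≤ 2 ∧
        ∀ j ∈ W, H.Adj i j → φ j ∈ bk (φ i) := by
    intro φ hφ W hW
    obtain ⟨i, hi, hmax⟩ := Finset.exists_max_image W (fun j => r (φ j)) hW
    have h1 : ∀ j ∈ W, H.Adj i j → φ j ∈ bk (φ i) := by
      intro j hj hij
      have h2 : r (φ j) ≤ r (φ i) := hmax j hj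
      have h3 : r (φ j) ≠ r (φ i) := fun h => hij.ne (φ.injective (hinj h)).symm
      simp only [bk, Finset.mem_filter, Finset.mem_univ, true_and]
      exact ⟨hφ i j hij, lt_of_le_of_ne h2 h3⟩
    refine ⟨i, hi, ?_, h1⟩
    have h4 : ((W.filter (fun j => H.Adj i j)).map φ) ⊆ bk (φ i) := by
      intro y hy
      rw [Finset.mem_map] at hy
      obtain ⟨j, hj, rfl⟩ := hy
      rw [Finset.mem_filter] at hj
      exact h1 j hj.1 hj.2
    have h5 := Finset.card_le_card h4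
    rw [Finset.card_map] at h5
    exact h5.trans (hbk _)
  have hmem : ∀ φ : Fin 5 ↪ Fin n, (∀ u v, H.Adj u v → G.Adj (φ u) (φ v)) →
      ∀ i, φ i ∈ T (φ 4) := by
    intro φ hφ
    obtain ⟨i, -, hi1, hi2⟩ := key φ hφ Finset.univ ⟨0, by simp⟩
    have h4 : i = 4 := by
      have : ∀ i : Fin 5, (Finset.univ.filter (fun j => H.Adj i j)).card ≤ 2 → i = 4 := by decide
      exact this i hi1
    subst h4
    have ha : φ 0 ∈ bk (φ 4) := hi2 0 (by simp) (by decide)
    have hb : φ 1 ∈ bk (φ 4) := hi2 1 (by simp) (by decide)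
    obtain ⟨i, hi0, hi1, hi2⟩ := key φ hφ {0, 1, 2, 3} ⟨0, by simp⟩
    have h01 : i = 0 ∨ i = 1 := by
      have : ∀ i : Fin 5, i ∈ ({0, 1, 2, 3} : Finset (Fin 5)) →
        (({0, 1, 2, 3} : Finset (Fin 5)).filter (fun j => H.Adj i j)).card ≤ 2 → i = 0 ∨ i = 1 := by
        decide
      exact this i hi0 hi1
    have hcd : φ 2 ∈ (bk (φ 4)).biUnion bk ∧ φ 3 ∈ (bk (φ 4)).biUnion bk := by
      rcases h01 with rfl | rfl
      · exact ⟨Finset.mem_biUnion.2 ⟨_, ha, hi2 2 (by simp) (by decide)⟩,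
          Finset.mem_biUnion.2 ⟨_, ha, hi2 3 (by simp) (by decide)⟩⟩
      · exact ⟨Finset.mem_biUnion.2 ⟨_, hb, hi2 2 (by simp) (by decide)⟩,
          Finset.mem_biUnion.2 ⟨_, hb, hi2 3 (by simp) (by decide)⟩⟩
    intro i
    simp only [T, Finset.mem_insert, Finset.mem_union]
    fin_cases i
    · exact Or.inr (Or.inl ha)
    · exact Or.inr (Or.inl hb)
    · exact Or.inr (Or.inr hcd.1)
    · exact Or.inr (Or.inr hcd.2)
    · exact Or.inl rfl
  -- count
  let F : Finset (Fin 5 ↪ Fin n) := Finset.univ.filter (fun φ => ∀ u v, H.Adj u v → G.Adj (φ u) (φ v))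
  have hF : {φ : Fin 5 ↪ Fin n | ∀ u v, H.Adj u v → G.Adj (φ u) (φ v)} = (F : Set (Fin 5 ↪ Fin n)) := by
    ext φ; simp [F]
  rw [hF, Set.ncard_coe_finset]
  have hinj2 : Function.Injective (fun φ : Fin 5 ↪ Fin n => (φ : Fin 5 → Fin n)) := DFunLike.coe_injective
  have hsub : F.image (fun φ : Fin 5 ↪ Fin n => (φ : Fin 5 → Fin n)) ⊆
      Finset.univ.biUnion (fun x : Fin n => Fintype.piFinset (fun _ : Fin 5 => T x)) := by
    intro g hg
    rw [Finset.mem_image] at hg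
    obtain ⟨φ, hφ, rfl⟩ := hg
    simp only [F, Finset.mem_filter, Finset.mem_univ, true_and] at hφ
    rw [Finset.mem_biUnion]
    exact ⟨φ 4, Finset.mem_univ _, Fintype.mem_piFinset.2 (hmem φ hφ)⟩
  calc F.card = (F.image (fun φ : Fin 5 ↪ Fin n => (φ : Fin 5 → Fin n))).card :=
        (Finset.card_image_of_injective _ hinj2).symm
    _ ≤ _ := Finset.card_le_card hsub
    _ ≤ (Finset.univ : Finset (Fin n)).card * 7 ^ 5 := by
        refine Finset.card_biUnion_le_card_mul _ _ _ fun x _ => ?_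
        rw [Fintype.card_piFinset]
        simp only [Finset.prod_const, Finset.card_univ, Fintype.card_fin]
        exact Nat.pow_le_pow_left (hT x) 5
    _ = 7 ^ 5 * n := by rw [Finset.card_univ, Fintype.card_fin, mul_comm]

/-- The negation of the preceding statement: For every k and every nonempty k-degenerate graph H with flap number f (1 if H has no (≤k)-separation, else the max number of pairwise independent ones), the max number of copies of H in an n-vertex k-degenerate graph is Θ(n^f). -/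
theorem result :
    ¬ (∀ (k : ℕ) (V : Type) [Fintype V] [Nonempty V] (H : SimpleGraph V),
    (∀ S : Finset V, S.Nonempty → ∃ v ∈ S, {w : V | w ∈ S ∧ H.Adj v w}.ncard ≤ k) →
    ∀ f : ℕ,
      (((¬ ∃ A B : H.Subgraph, A ⊔ B = ⊤ ∧ (∀ u v, A.Adj u v → ¬ B.Adj u v) ∧
            (∃ v, v ∈ A.verts ∧ v ∉ B.verts) ∧ (∃ v, v ∈ B.verts ∧ v ∉ A.verts) ∧
            (A.verts ∩ B.verts).ncard ≤ k) ∧ f = 1) ∨
       ((∃ A B : H.Subgraph, A ⊔ B = ⊤ ∧ (∀ u v, A.Adj u v → ¬ B.Adj u v) ∧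
            (∃ v, v ∈ A.verts ∧ v ∉ B.verts) ∧ (∃ v, v ∈ B.verts ∧ v ∉ A.verts) ∧
            (A.verts ∩ B.verts).ncard ≤ k) ∧
         IsGreatest {m : ℕ | ∃ A B : Fin m → H.Subgraph,
            (∀ i, A i ⊔ B i = ⊤ ∧ (∀ u v, (A i).Adj u v → ¬ (B i).Adj u v) ∧
              (∃ v, v ∈ (A i).verts ∧ v ∉ (B i).verts) ∧
              (∃ v, v ∈ (B i).verts ∧ v ∉ (A i).verts) ∧
              ((A i).verts ∩ (B i).verts).ncard ≤ k) ∧
            ∀ i j, i ≠ j →
              (∀ u v, (A i).Adj u v → ¬ (A j).Adj u v) ∧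
              ∀ v, v ∈ (A i).verts → v ∉ (B i).verts → ¬ (v ∈ (A j).verts ∧ v ∉ (B j).verts)} f)) →
      ∃ c₁ c₂ : ℝ, 0 < c₁ ∧ 0 < c₂ ∧ ∃ N : ℕ, ∀ n : ℕ, N ≤ n →
        (∃ G : SimpleGraph (Fin n),
            (∀ S : Finset (Fin n), S.Nonempty → ∃ v ∈ S, {w : Fin n | w ∈ S ∧ G.Adj v w}.ncard ≤ k) ∧
            c₁ * (n : ℝ) ^ f ≤
              (({φ : V ↪ Fin n | ∀ u v, H.Adj u v → G.Adj (φ u) (φ v)}.ncard : ℕ) : ℝ)) ∧
        ∀ G : SimpleGraph (Fin n),
            (∀ S : Finset (Fin n), S.Nonempty → ∃ v ∈ S, {w : Fin n | w ∈ S ∧ G.Adj v w}.ncard ≤ k) →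
            (({φ : V ↪ Fin n | ∀ u v, H.Adj u v → G.Adj (φ u) (φ v)}.ncard : ℕ) : ℝ) ≤ c₂ * (n : ℝ) ^ f) := by
  intro hall
  -- the set of sizes of independent families
  obtain ⟨M, hM⟩ : ∃ M : Set ℕ, M = {m : ℕ | ∃ A B : Fin m → H.Subgraph,
            (∀ i, A i ⊔ B i = ⊤ ∧ (∀ u v, (A i).Adj u v → ¬ (B i).Adj u v) ∧
              (∃ v, v ∈ (A i).verts ∧ v ∉ (B i).verts) ∧
              (∃ v, v ∈ (B i).verts ∧ v ∉ (A i).verts) ∧
              ((A i).verts ∩ (B i).verts).ncard ≤ 2) ∧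
            ∀ i j, i ≠ j →
              (∀ u v, (A i).Adj u v → ¬ (A j).Adj u v) ∧
              ∀ v, v ∈ (A i).verts → v ∉ (B i).verts → ¬ (v ∈ (A j).verts ∧ v ∉ (B j).verts)} :=
    ⟨_, rfl⟩
  have h2M : 2 ∈ M := by rw [hM]; exact two_mem
  have hbdd : BddAbove M := by
    refine ⟨5, ?_⟩
    intro m hm
    rw [hM] at hm
    obtain ⟨A, B, h1, h2⟩ := hm
    choose w hw1 hw2 using fun i => (h1 i).2.2.1
    have hw : Function.Injective w := by
      intro i j hij
      by_contra hne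
      exact (h2 i j hne).2 (w i) (hw1 i) (hw2 i) ⟨hij ▸ hw1 j, hij ▸ hw2 j⟩
    have := Fintype.card_le_of_injective w hw
    simpa using this
  have hgr : IsGreatest M (sSup M) := ⟨Nat.sSup_mem ⟨2, h2M⟩ hbdd, fun m hm => le_csSup hbdd hm⟩
  have hf2 : 2 ≤ sSup M := hgr.2 h2M
  obtain ⟨A, B, h1, -⟩ := two_mem
  have hmain := hall 2 (Fin 5) H H_deg (sSup M) (Or.inr ⟨⟨A 0, B 0, (h1 0).1, (h1 0).2.1, (h1 0).2.2.1,
    (h1 0).2.2.2.1, (h1 0).2.2.2.2⟩, by rw [hM] at hgr ⊢; exact hgr⟩)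
  obtain ⟨c₁, c₂, hc₁, hc₂, N, hN⟩ := hmain
  obtain ⟨n, hn⟩ := exists_nat_gt ((7 : ℝ) ^ 5 / c₁)
  obtain ⟨⟨G, hG, hGc⟩, -⟩ := hN (N + n + 1) (by omega)
  have hcount := count_le G hG
  have hx : (1 : ℝ) ≤ ((N + n + 1 : ℕ) : ℝ) := by exact_mod_cast Nat.le_add_left 1 (N + n)
  have hpow : ((N + n + 1 : ℕ) : ℝ) ^ 2 ≤ ((N + n + 1 : ℕ) : ℝ) ^ (sSup M) :=
    pow_le_pow_right₀ hx hf2
  have hcount' : (({φ : Fin 5 ↪ Fin (N + n + 1) | ∀ u v, H.Adj u v → G.Adj (φ u) (φ v)}.ncard : ℕ) : ℝ)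
      ≤ 7 ^ 5 * ((N + n + 1 : ℕ) : ℝ) := by exact_mod_cast hcount
  have h3 : c₁ * ((N + n + 1 : ℕ) : ℝ) ^ 2 ≤ 7 ^ 5 * ((N + n + 1 : ℕ) : ℝ) :=
    (mul_le_mul_of_nonneg_left hpow hc₁.le).trans (hGc.trans hcount')
  have h4 : c₁ * ((N + n + 1 : ℕ) : ℝ) ≤ 7 ^ 5 := by
    have h5 : c₁ * ((N + n + 1 : ℕ) : ℝ) * ((N + n + 1 : ℕ) : ℝ) ≤ 7 ^ 5 * ((N + n + 1 : ℕ) : ℝ) := by
      nlinarith
    exact le_of_mul_le_mul_right h5 (by linarith)
  have h6 : (n : ℝ) ≤ ((N + n + 1 : ℕ) : ℝ) := by exact_mod_cast (by omega : n ≤ N + n + 1)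
  rw [div_lt_iff₀ hc₁] at hn
  have : (n : ℝ) * c₁ ≤ c₁ * ((N + n + 1 : ℕ) : ℝ) := by nlinarith
  linarith

end Pool.Agent.S09798
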