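import Pool.Statements.S11473
import Pool.Agent.J6H51.LocDim.Count

set_option autoImplicit false
open Pool Pool.MP_cc29fe_co

namespace Pool.Agent.S11473

/-- Every finite connected graph with n vertices and clique number ω, where n ≥ ω+1 ≥ 4, has a set of at most (ω−2)/(ω−1)·n vertices distinguishing every adjacent pair by distance, i.e. local metric dimension ≤ (ω−2)n/(ω−1). -/
theorem result :
    ∀ (V : Type) [Fintype V] (G : SimpleGraph V), G.Connected →
      ∀ ω : ℕ, (∃ s : Finset V, G.IsNClique ω s) → G.CliqueFree (ω + 1) →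
        4 ≤ ω + 1 → ω + 1 ≤ Fintype.card V →
        ∃ W : Finset V,
          (∀ u v : V, G.Adj u v → ∃ w ∈ W, G.dist u w ≠ G.dist v w) ∧
          (W.card : ℝ) ≤ ((ω : ℝ) - 2) / ((ω : ℝ) - 1) * (Fintype.card V : ℝ) := by
  classical
  intro V _ G hc ω _ hcf h4 hn
  obtain ⟨m, rfl⟩ : ∃ m, ω = m + 2 := ⟨ω - 2, by omega⟩
  obtain ⟨W, hgood, hle⟩ :=
    Pool.Agent.J6H51.LocDim.bound G hc m (by omega) hcf (by omega)
  refine ⟨W, hgood, ?_⟩
  have hWc : W.card ≤ Fintype.card V := Finset.card_le_univ W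
  have h1 : (W.card : ℝ) ≤ (m : ℝ) * ((Fintype.card V : ℝ) - (W.card : ℝ)) := by
    have : ((W.card : ℕ) : ℝ) ≤ ((m * (Fintype.card V - W.card) : ℕ) : ℝ) := by exact_mod_cast hle
    rw [Nat.cast_mul, Nat.cast_sub hWc] at this
    exact this
  have hm1 : (0 : ℝ) < (m : ℝ) + 1 := by positivity
  have e1 : (((m + 2 : ℕ) : ℝ) - 2) = (m : ℝ) := by push_cast; ring
  have e2 : (((m + 2 : ℕ) : ℝ) - 1) = (m : ℝ) + 1 := by push_cast; ring
  rw [e1, e2, div_mul_eq_mul_div, le_div_iff₀ hm1]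
  nlinarith [h1]

end Pool.Agent.S11473
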