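import Pool.Statements.S11644
import Pool.Agent.J6H70.SplitC4.Numeric

set_option autoImplicit false
open Filter Asymptotics
open Pool Pool.MP_d302ba_co

namespace Pool.Agent.S11644

/-- The number of edges in our counterexample. -/
def edges (n : ℕ) : ℕ := n * 2 ^ (Nat.log 2 n / 3) * 2 ^ (Nat.log 2 (Nat.log 2 n) / 2)

lemma edges_special (v : ℕ) (hv : 1 ≤ v) :
    edges (2 ^ (3 * 2 ^ (4 * v) + 3)) = 2 ^ (4 * 2 ^ (4 * v) + 4 + 2 * v) := by
  have h1 : Nat.log 2 (2 ^ (3 * 2 ^ (4 * v) + 3)) = 3 * 2 ^ (4 * v) + 3 :=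
    Nat.log_pow (by norm_num) _
  have h2 : Nat.log 2 (3 * 2 ^ (4 * v) + 3) = 4 * v + 1 := by
    rw [Nat.log_eq_iff (Or.inl (by omega))]
    have h3 : 3 < 2 ^ (4 * v) := by
      calc 3 < 2 ^ 4 := by norm_num
        _ ≤ 2 ^ (4 * v) := Nat.pow_le_pow_right (by norm_num) (by omega)
    constructor
    · rw [pow_succ]; omega
    · rw [pow_succ, pow_succ]; omega
  unfold edges
  rw [h1, h2]
  have h4 : (3 * 2 ^ (4 * v) + 3) / 3 = 2 ^ (4 * v) + 1 := by omega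
  have h5 : (4 * v + 1) / 2 = 2 * v := by omega
  rw [h4, h5, ← pow_add, ← pow_add]
  congr 1
  ring

lemma edges_lower (n : ℕ) (hn : 2 ≤ n) :
    (n : ℝ) ^ ((4 : ℝ) / 3) * (Real.log n) ^ ((1 : ℝ) / 2) ≤ 6 * (edges n : ℝ) := by
  set l := Nat.log 2 n with hl
  set A := 2 ^ (l / 3) with hA
  set B := 2 ^ (Nat.log 2 l / 2) with hB
  have hn0 : (0 : ℝ) < n := by exact_mod_cast (by omega : 0 < n)
  have hl1 : 1 ≤ l := Nat.log_pos (by norm_num) hn
  have h1 : n < 2 ^ (l + 1) := Nat.lt_pow_succ_log_self (by norm_num) n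
  have h2 : n ≤ 8 * A ^ 3 := by
    refine h1.le.trans ?_
    rw [hA, ← pow_mul, show (8 : ℕ) = 2 ^ 3 by norm_num, ← pow_add]
    exact Nat.pow_le_pow_right (by norm_num) (by omega)
  have h3 : l ≤ 4 * B ^ 2 := by
    have h3' : l < 2 ^ (Nat.log 2 l + 1) := Nat.lt_pow_succ_log_self (by norm_num) l
    refine h3'.le.trans ?_
    rw [hB, ← pow_mul, show (4 : ℕ) = 2 ^ 2 by norm_num, ← pow_add]
    exact Nat.pow_le_pow_right (by norm_num) (by omega)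
  have h4 : (n : ℝ) ^ ((1 : ℝ) / 3) ≤ 2 * A := by
    have e1 : (n : ℝ) ≤ (2 * (A : ℝ)) ^ 3 := by
      have : (n : ℝ) ≤ 8 * (A : ℝ) ^ 3 := by exact_mod_cast h2
      calc (n : ℝ) ≤ 8 * (A : ℝ) ^ 3 := this
        _ = _ := by ring
    calc (n : ℝ) ^ ((1 : ℝ) / 3) ≤ ((2 * (A : ℝ)) ^ 3) ^ ((1 : ℝ) / 3) :=
          Real.rpow_le_rpow hn0.le e1 (by norm_num)
      _ = 2 * A := by
          rw [← Real.rpow_natCast, ← Real.rpow_mul (by positivity)]
          norm_num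
  have h5 : Real.log n ≤ 8 * (B : ℝ) ^ 2 := by
    have e1 : Real.log n ≤ Real.log ((2 : ℝ) ^ (l + 1)) := by
      refine Real.log_le_log hn0 ?_
      exact_mod_cast h1.le
    rw [Real.log_pow] at e1
    have e2 := Real.log_two_lt_d9
    have e3 : (l : ℝ) ≤ 4 * (B : ℝ) ^ 2 := by exact_mod_cast h3
    have e4 : (1 : ℝ) ≤ l := by exact_mod_cast hl1
    push_cast at e1
    have e5 : ((l : ℝ) + 1) * Real.log 2 ≤ ((l : ℝ) + 1) * 1 :=
      mul_le_mul_of_nonneg_left (by linarith) (by linarith)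
    linarith
  have h6 : (Real.log n) ^ ((1 : ℝ) / 2) ≤ 3 * B := by
    have e0 : 0 ≤ Real.log n := Real.log_nonneg (by exact_mod_cast (by omega : 1 ≤ n))
    calc (Real.log n) ^ ((1 : ℝ) / 2) ≤ ((3 * (B : ℝ)) ^ 2) ^ ((1 : ℝ) / 2) := by
          refine Real.rpow_le_rpow e0 ?_ (by norm_num)
          nlinarith [sq_nonneg (B : ℝ)]
      _ = 3 * B := by
          rw [← Real.rpow_natCast, ← Real.rpow_mul (by positivity)]
          norm_num
  have h7 : (n : ℝ) ^ ((4 : ℝ) / 3) = n * (n : ℝ) ^ ((1 : ℝ) / 3) := by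
    have : (4 : ℝ) / 3 = 1 + 1 / 3 := by norm_num
    rw [this, Real.rpow_add hn0, Real.rpow_one]
  have h8 : 0 ≤ (Real.log n) ^ ((1 : ℝ) / 2) :=
    Real.rpow_nonneg (Real.log_nonneg (by exact_mod_cast (by omega : 1 ≤ n))) _
  rw [h7]
  calc n * (n : ℝ) ^ ((1 : ℝ) / 3) * (Real.log n) ^ ((1 : ℝ) / 2)
      ≤ n * (2 * A) * (3 * B) := by gcongr
    _ = 6 * (edges n : ℝ) := by
        unfold edges
        rw [← hl, ← hA, ← hB]
        push_cast
        ring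

lemma edges_upper (n : ℕ) (hn : 2 ^ 20 ≤ n) : 8 * edges n ≤ n * n := by
  set l := Nat.log 2 n with hl
  have h1 : 2 ^ l ≤ n := Nat.pow_log_le_self 2 (by omega)
  have hl1 : 20 ≤ l := (Nat.le_log_iff_pow_le (by norm_num) (by omega)).2 hn
  set q := Nat.log 2 l with hq
  have h2 : 2 ^ q ≤ l := Nat.pow_log_le_self 2 (by omega)
  have h3 : q < 2 ^ q := Nat.lt_two_pow_self
  have h3' : 2 * q ≤ l := by
    rcases Nat.eq_zero_or_pos q with h | h
    · omega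
    · obtain ⟨r, hr⟩ : ∃ r, q = r + 1 := ⟨q - 1, by omega⟩
      have : r < 2 ^ r := Nat.lt_two_pow_self
      rw [hr, pow_succ] at h2
      omega
  have h4 : 3 + (l / 3 + q / 2) ≤ l := by omega
  have h5 : 8 * (2 ^ (l / 3) * 2 ^ (q / 2)) ≤ n := by
    calc 8 * (2 ^ (l / 3) * 2 ^ (q / 2)) = 2 ^ (3 + (l / 3 + q / 2)) := by
          rw [pow_add, pow_add]; ring
      _ ≤ 2 ^ l := Nat.pow_le_pow_right (by norm_num) h4
      _ ≤ n := h1
  unfold edges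
  rw [← hl, ← hq]
  calc 8 * (n * 2 ^ (l / 3) * 2 ^ (q / 2)) = n * (8 * (2 ^ (l / 3) * 2 ^ (q / 2))) := by ring
    _ ≤ n * n := Nat.mul_le_mul_left _ h5

lemma edges_isLittleO :
    (fun n : ℕ => (n : ℝ) ^ ((4 : ℝ) / 3) * (Real.log n) ^ ((1 : ℝ) / 3))
          =o[atTop] (fun n : ℕ => (edges n : ℝ)) := by
  rw [Asymptotics.isLittleO_iff]
  intro c hc
  have h1 : Tendsto (fun n : ℕ => 6 * (Real.log (n : ℝ)) ^ (-((1 : ℝ) / 6))) atTop (nhds (6 * 0)) := by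
    refine Tendsto.const_mul 6 ?_
    exact (tendsto_rpow_neg_atTop (by norm_num : (0 : ℝ) < 1 / 6)).comp
      (Real.tendsto_log_atTop.comp tendsto_natCast_atTop_atTop)
  rw [mul_zero] at h1
  have h2 : ∀ᶠ n : ℕ in atTop, 6 * (Real.log (n : ℝ)) ^ (-((1 : ℝ) / 6)) < c :=
    h1.eventually (gt_mem_nhds hc)
  filter_upwards [h2, eventually_ge_atTop 3] with n hn hn3
  have hlog : 0 < Real.log n := Real.log_pos (by exact_mod_cast (by omega : 1 < n))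
  have hn0 : (0 : ℝ) < n := by exact_mod_cast (by omega : 0 < n)
  have h3 := edges_lower n (by omega)
  have h4 : (Real.log n) ^ ((1 : ℝ) / 3) =
      (Real.log n) ^ ((1 : ℝ) / 2) * (Real.log (n : ℝ)) ^ (-((1 : ℝ) / 6)) := by
    rw [← Real.rpow_add hlog]
    norm_num
  have h5 : 0 ≤ (n : ℝ) ^ ((4 : ℝ) / 3) * (Real.log n) ^ ((1 : ℝ) / 3) := by positivity
  rw [Real.norm_of_nonneg h5, Real.norm_of_nonneg (by positivity)]
  have h6 : (0 : ℝ) ≤ (Real.log (n : ℝ)) ^ (-((1 : ℝ) / 6)) := by positivity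
  calc (n : ℝ) ^ ((4 : ℝ) / 3) * (Real.log n) ^ ((1 : ℝ) / 3)
      = ((n : ℝ) ^ ((4 : ℝ) / 3) * (Real.log n) ^ ((1 : ℝ) / 2)) *
        (Real.log (n : ℝ)) ^ (-((1 : ℝ) / 6)) := by rw [h4]; ring
    _ ≤ (6 * (edges n : ℝ)) * (Real.log (n : ℝ)) ^ (-((1 : ℝ) / 6)) := by gcongr
    _ = (6 * (Real.log (n : ℝ)) ^ (-((1 : ℝ) / 6))) * (edges n : ℝ) := by ring
    _ ≤ c * (edges n : ℝ) := by gcongr

/-- The negation of the preceding statement: Fix m(n) with n^{4/3}(log n)^{1/3} = o(m) and m at most C(n,2) − cn² for some c>0. Then the fraction of labelled n-vertex induced-C4-free graphs with m edges that are split tends to 1. -/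
theorem result :
    ¬ (∀ m : ℕ → ℕ,
      (fun n : ℕ => (n : ℝ) ^ ((4 : ℝ) / 3) * (Real.log n) ^ ((1 : ℝ) / 3))
          =o[atTop] (fun n : ℕ => (m n : ℝ)) →
      (∃ c : ℝ, 0 < c ∧ ∀ᶠ n in atTop, (m n : ℝ) ≤ ((n.choose 2 : ℕ) : ℝ) - c * (n : ℝ) ^ 2) →
      Tendsto (fun n : ℕ =>
        (({G : SimpleGraph (Fin n) | G.edgeSet.ncard = m n ∧
            (∀ a b c d : Fin n, a ≠ c → b ≠ d → G.Adj a b → G.Adj b c → G.Adj c d →
              G.Adj d a → G.Adj a c ∨ G.Adj b d) ∧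
            ∃ S : Set (Fin n), (∀ u ∈ S, ∀ v ∈ S, u ≠ v → G.Adj u v) ∧
              (∀ u, u ∉ S → ∀ v, v ∉ S → ¬ G.Adj u v)}.ncard : ℕ) : ℝ) /
        (({G : SimpleGraph (Fin n) | G.edgeSet.ncard = m n ∧
            (∀ a b c d : Fin n, a ≠ c → b ≠ d → G.Adj a b → G.Adj b c → G.Adj c d →
              G.Adj d a → G.Adj a c ∨ G.Adj b d)}.ncard : ℕ) : ℝ))
        atTop (nhds 1)) := by
  intro hmain
  have hlim := hmain edges edges_isLittleO ⟨1 / 8, by norm_num, by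
    filter_upwards [eventually_ge_atTop (2 ^ 20)] with n hn
    have h1 := edges_upper n hn
    have h2 : (8 * (edges n : ℝ)) ≤ (n : ℝ) * n := by exact_mod_cast h1
    have h3 : ((n.choose 2 : ℕ) : ℝ) = (n : ℝ) * (n - 1) / 2 := Nat.cast_choose_two ℝ n
    rw [h3]
    have h4 : (4 : ℝ) ≤ n := by
      have : 4 ≤ n := le_trans (by norm_num) hn
      exact_mod_cast this
    nlinarith⟩
  have hsub : Tendsto (fun v : ℕ => 2 ^ (3 * 2 ^ (4 * v) + 3)) atTop atTop := by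
    refine tendsto_atTop_mono (fun v => ?_) tendsto_id
    have h1 : v < 2 ^ v := Nat.lt_two_pow_self
    have h2 : 2 ^ v ≤ 2 ^ (4 * v) := Nat.pow_le_pow_right (by norm_num) (by omega)
    have h3 : 3 * 2 ^ (4 * v) + 3 < 2 ^ (3 * 2 ^ (4 * v) + 3) := Nat.lt_two_pow_self
    simp only [id_eq]
    omega
  have hlim2 := hlim.comp hsub
  have hev : ∀ᶠ v : ℕ in atTop, (1 / 2 : ℝ) < 1 / 2 := by
    have h1 := hlim2.eventually (lt_mem_nhds (show (1 / 2 : ℝ) < 1 by norm_num))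
    filter_upwards [h1, eventually_ge_atTop 6] with v hv hv6
    refine lt_of_lt_of_le hv ?_
    simp only [Function.comp_apply]
    rw [edges_special v (by omega)]
    have hhalf := Pool.Agent.J6H70.SplitC4.half_bound v hv6 (2 ^ (3 * 2 ^ (4 * v) + 3))
      (2 ^ (4 * 2 ^ (4 * v) + 4 + 2 * v)) rfl rfl
      {G : SimpleGraph (Fin (2 ^ (3 * 2 ^ (4 * v) + 3))) |
        G.edgeSet.ncard = 2 ^ (4 * 2 ^ (4 * v) + 4 + 2 * v) ∧
            (∀ a b c d : Fin (2 ^ (3 * 2 ^ (4 * v) + 3)), a ≠ c → b ≠ d → G.Adj a b → G.Adj b c →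
              G.Adj c d → G.Adj d a → G.Adj a c ∨ G.Adj b d) ∧
            ∃ S : Set (Fin (2 ^ (3 * 2 ^ (4 * v) + 3))), (∀ u ∈ S, ∀ v ∈ S, u ≠ v → G.Adj u v) ∧
              (∀ u, u ∉ S → ∀ v, v ∉ S → ¬ G.Adj u v)}
      {G : SimpleGraph (Fin (2 ^ (3 * 2 ^ (4 * v) + 3))) |
        G.edgeSet.ncard = 2 ^ (4 * 2 ^ (4 * v) + 4 + 2 * v) ∧
            (∀ a b c d : Fin (2 ^ (3 * 2 ^ (4 * v) + 3)), a ≠ c → b ≠ d → G.Adj a b → G.Adj b c →
              G.Adj c d → G.Adj d a → G.Adj a c ∨ G.Adj b d)}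
      (fun G hG => ⟨hG.1, hG.2.2⟩) (fun G h1 h2 => ⟨h1, h2⟩)
    refine div_le_of_le_mul₀ (Nat.cast_nonneg _) (by norm_num) ?_
    linarith
  obtain ⟨v, hv⟩ := hev.exists
  exact lt_irrefl _ hv

end Pool.Agent.S11644
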