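import Pool.Statements.S12254
import Pool.Agent.J6H1.Tuza.Struct
import Pool.Agent.J6H1.Tuza.Upper

set_option autoImplicit false
open Pool Pool.MP_ec92e0_co

namespace Pool.Agent.S12254

open Pool.Agent.J6H1.Tuza

/-! Tuza's conjecture on saturation numbers fails for the graph `Pool.Agent.J6H1.Tuza.H` on 477
vertices: if `n` is `16` modulo `102` then `K_16` joined to disjoint copies of `K_102` is
`H`-saturated and has at most `(133 / 2) n` edges; for all other large `n` every `H`-saturated graph has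
more than `(133 / 2 + 1 / 2000) n` edges. -/

theorem two_mul_ncard {n : ℕ} (G : SimpleGraph (Fin n)) [DecidableRel G.Adj] :
    2 * G.edgeSet.ncard = ∑ v, (G.neighborFinset v).card := by
  classical
  have h1 : G.edgeSet.ncard = G.edgeFinset.card := by
    rw [← SimpleGraph.coe_edgeFinset, Set.ncard_coe_finset]
  have h2 := G.sum_degrees_eq_twice_card_edges
  rw [h1, ← h2]
  rfl

theorem exists_sat (n : ℕ) : ∃ G : SimpleGraph (Fin n), Sat G := by
  classical
  have h0 : ¬ Contains (⊥ : SimpleGraph (Fin n)) := by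
    rintro ⟨f, -, hf⟩
    have : H.Adj ⟨0, ⟨0, by decide⟩⟩ ⟨1, ⟨0, by decide⟩⟩ := ⟨by decide, by decide⟩
    exact (hf _ _ this)
  obtain ⟨G, hG⟩ := (Set.toFinite {G : SimpleGraph (Fin n) | ¬ Contains G}).exists_maximal ⟨⊥, h0⟩
  refine ⟨G, hG.1, ?_⟩
  intro u v huv hadj
  let G' : SimpleGraph (Fin n) := G ⊔ SimpleGraph.edge u v
  have hG' : Contains G' := by
    by_contra hc
    have h1 : G' ≤ G := hG.2 hc le_sup_left
    apply hadj
    apply h1
    rw [SimpleGraph.sup_adj, SimpleGraph.edge_adj]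
    exact Or.inr ⟨Or.inl ⟨rfl, rfl⟩, huv⟩
  obtain ⟨f, hf, hf2⟩ := hG'
  refine ⟨f, hf, fun a b hab => ?_⟩
  have h1 := hf2 a b hab
  rw [SimpleGraph.sup_adj, SimpleGraph.edge_adj] at h1
  rcases h1 with h1 | ⟨⟨h1, h2⟩ | ⟨h1, h2⟩, -⟩
  · exact Or.inl h1
  · exact Or.inr (Or.inl ⟨h1, h2⟩)
  · exact Or.inr (Or.inr ⟨h1, h2⟩)

/-- The negation of the preceding statement: For every finite graph H with at least one edge, the minimum edge count of an H-saturated graph on n vertices (H-free, but adding any missing edge creates a copy of H), divided by n, converges to a real limit. -/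
theorem result :
    ¬ (∀ (m : ℕ) (H : SimpleGraph (Fin m)), H.edgeSet.Nonempty →
      ∃ L : ℝ, Filter.Tendsto
        (fun n : ℕ => ((sInf {k : ℕ | ∃ G : SimpleGraph (Fin n),
            (¬ ∃ f : Fin m → Fin n, Function.Injective f ∧
                ∀ a b : Fin m, H.Adj a b → G.Adj (f a) (f b)) ∧
            (∀ u v : Fin n, u ≠ v → ¬ G.Adj u v →
              ∃ f : Fin m → Fin n, Function.Injective f ∧
                ∀ a b : Fin m, H.Adj a b →
                  (G.Adj (f a) (f b) ∨ (f a = u ∧ f b = v) ∨ (f a = v ∧ f b = u))) ∧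
            G.edgeSet.ncard = k} : ℕ) : ℝ) / (n : ℝ))
        Filter.atTop (nhds L)) := by
  classical
  intro hall
  let e : HV ≃ Fin (Fintype.card HV) := Fintype.equivFin HV
  let H' : SimpleGraph (Fin (Fintype.card HV)) := Pool.Agent.J6H1.Tuza.H.comap e.symm
  have hH' : ∀ a b, H'.Adj a b ↔ Pool.Agent.J6H1.Tuza.H.Adj (e.symm a) (e.symm b) := fun a b => Iff.rfl
  have hne : H'.edgeSet.Nonempty := by
    refine ⟨s(e ⟨0, ⟨0, by decide⟩⟩, e ⟨1, ⟨0, by decide⟩⟩), ?_⟩
    rw [SimpleGraph.mem_edgeSet, hH', Equiv.symm_apply_apply, Equiv.symm_apply_apply]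
    exact ⟨by decide, by decide⟩
  obtain ⟨L, hL⟩ := hall (Fintype.card HV) H' hne
  -- translate to `Sat`
  have hset : ∀ n : ℕ, {k : ℕ | ∃ G : SimpleGraph (Fin n),
            (¬ ∃ f : Fin (Fintype.card HV) → Fin n, Function.Injective f ∧
                ∀ a b : Fin (Fintype.card HV), H'.Adj a b → G.Adj (f a) (f b)) ∧
            (∀ u v : Fin n, u ≠ v → ¬ G.Adj u v →
              ∃ f : Fin (Fintype.card HV) → Fin n, Function.Injective f ∧
                ∀ a b : Fin (Fintype.card HV), H'.Adj a b →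
                  (G.Adj (f a) (f b) ∨ (f a = u ∧ f b = v) ∨ (f a = v ∧ f b = u))) ∧
            G.edgeSet.ncard = k} = {k : ℕ | ∃ G : SimpleGraph (Fin n), Sat G ∧ G.edgeSet.ncard = k} := by
    intro n
    ext k
    constructor
    · rintro ⟨G, h1, h2, h3⟩
      refine ⟨G, ⟨?_, ?_⟩, h3⟩
      · rintro ⟨f, hf, hf2⟩
        exact h1 ⟨f ∘ e.symm, hf.comp e.symm.injective, fun a b hab => hf2 _ _ hab⟩
      · intro u v huv hadj
        obtain ⟨f, hf, hf2⟩ := h2 u v huv hadj
        refine ⟨f ∘ e, hf.comp e.injective, fun a b hab => hf2 (e a) (e b) ?_⟩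
        rw [hH', Equiv.symm_apply_apply, Equiv.symm_apply_apply]
        exact hab
    · rintro ⟨G, h1, h3⟩
      refine ⟨G, ?_, ?_, h3⟩
      · rintro ⟨f, hf, hf2⟩
        refine h1.free ⟨f ∘ e, hf.comp e.injective, fun a b hab => hf2 (e a) (e b) ?_⟩
        rw [hH', Equiv.symm_apply_apply, Equiv.symm_apply_apply]
        exact hab
      · intro u v huv hadj
        obtain ⟨f, hf, hf2⟩ := h1.sat u v huv hadj
        exact ⟨f ∘ e.symm, hf.comp e.symm.injective, fun a b hab => hf2 _ _ hab⟩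
  simp only [hset] at hL
  -- the upper bound along `n = 16 + 102 t`
  have hup : ∀ t : ℕ, 5 ≤ t →
      ((sInf {k : ℕ | ∃ G : SimpleGraph (Fin (16 + 102 * t)), Sat G ∧ G.edgeSet.ncard = k} : ℕ) : ℝ) /
        ((16 + 102 * t : ℕ) : ℝ) ≤ 133 / 2 := by
    intro t ht
    have h1 : Sat (U (16 + 102 * t)) := ⟨U_free _, fun u v huv hadj => U_sat rfl ht u v huv hadj⟩
    have h2 : sInf {k : ℕ | ∃ G : SimpleGraph (Fin (16 + 102 * t)), Sat G ∧ G.edgeSet.ncard = k} ≤
        (U (16 + 102 * t)).edgeSet.ncard := Nat.sInf_le ⟨_, h1, rfl⟩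
    have h3 := two_mul_ncard (U (16 + 102 * t))
    have h4 := U_degree_sum (16 + 102 * t)
    have h5 : 2 * sInf {k : ℕ | ∃ G : SimpleGraph (Fin (16 + 102 * t)), Sat G ∧ G.edgeSet.ncard = k} ≤
        133 * (16 + 102 * t) := by omega
    have h6 : (2 : ℝ) * ((sInf {k : ℕ | ∃ G : SimpleGraph (Fin (16 + 102 * t)), Sat G ∧
        G.edgeSet.ncard = k} : ℕ) : ℝ) ≤ 133 * ((16 + 102 * t : ℕ) : ℝ) := by exact_mod_cast h5
    rw [div_le_iff₀ (by positivity)]
    linarith
  -- the lower bound along `n = 17 + 102 t`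
  have hlow : ∀ t : ℕ, 1000000000000000 ≤ t →
      133001 / 2000 ≤ ((sInf {k : ℕ | ∃ G : SimpleGraph (Fin (17 + 102 * t)), Sat G ∧
        G.edgeSet.ncard = k} : ℕ) : ℝ) / ((17 + 102 * t : ℕ) : ℝ) := by
    intro t ht
    obtain ⟨G, hG, hGk⟩ : sInf {k : ℕ | ∃ G : SimpleGraph (Fin (17 + 102 * t)), Sat G ∧
        G.edgeSet.ncard = k} ∈ {k : ℕ | ∃ G : SimpleGraph (Fin (17 + 102 * t)), Sat G ∧
        G.edgeSet.ncard = k} := by
      apply Nat.sInf_mem
      obtain ⟨G, hG⟩ := exists_sat (17 + 102 * t)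
      exact ⟨_, G, hG, rfl⟩
    rw [← hGk, le_div_iff₀ (by positivity)]
    have h1 : 133001 * (17 + 102 * t) ≤ 2000 * G.edgeSet.ncard := by
      by_contra hc
      have h2 := two_mul_ncard G
      obtain ⟨t', ht'⟩ := structure_thm (G := G) hG (by rw [Fintype.card_fin]; omega)
        (by rw [Fintype.card_fin]; omega)
      rw [Fintype.card_fin] at ht'
      omega
    have h2 : (133001 : ℝ) * ((17 + 102 * t : ℕ) : ℝ) ≤ 2000 * (G.edgeSet.ncard : ℝ) := by
      exact_mod_cast h1
    linarith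
  have ht1 : Filter.Tendsto (fun t : ℕ => 16 + 102 * t) Filter.atTop Filter.atTop :=
    Filter.tendsto_atTop_mono (fun t => by simp only [id]; omega) Filter.tendsto_id
  have ht2 : Filter.Tendsto (fun t : ℕ => 17 + 102 * t) Filter.atTop Filter.atTop :=
    Filter.tendsto_atTop_mono (fun t => by simp only [id]; omega) Filter.tendsto_id
  have hL1 : L ≤ 133 / 2 := by
    refine le_of_tendsto (hL.comp ht1) ?_
    filter_upwards [Filter.eventually_ge_atTop 5] with t ht
    exact hup t ht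
  have hL2 : 133001 / 2000 ≤ L := by
    refine ge_of_tendsto (hL.comp ht2) ?_
    filter_upwards [Filter.eventually_ge_atTop 1000000000000000] with t ht
    exact hlow t ht
  linarith

end Pool.Agent.S12254
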