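import Pool.Statements.S12269
import Pool.Agent.J6H69.Mader.Final

set_option autoImplicit false
open Pool Pool.MP_ed9a33_co

namespace Pool.Agent.S12269

/-- There is a constant c such that for every k ≥ 3 and every orientation C of the k-cycle, every finite nonempty digraph in which each vertex has at least c·k out-neighbours contains a subdivision of C. -/
theorem result :
  ∃ c : ℕ, ∀ k : ℕ, 3 ≤ k → ∀ σ : ℕ → Bool, ∀ n : ℕ, 0 < n → ∀ G : Digraph (Fin n),
    (∀ v : Fin n, ∃ S : Finset (Fin n), c * k ≤ S.card ∧ ∀ w ∈ S, w ≠ v ∧ G.Adj v w) →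
    ∃ ℓ : ℕ → ℕ, ∃ p : ℕ → ℕ → Fin n,
      (∀ i < k, 1 ≤ ℓ i ∧ p i (ℓ i) = p ((i + 1) % k) 0 ∧
        ∀ j < ℓ i, (σ i = true → G.Adj (p i j) (p i (j + 1))) ∧
                   (σ i = false → G.Adj (p i (j + 1)) (p i j))) ∧
      (∀ i i' j j' : ℕ, i < k → i' < k → j < ℓ i → j' < ℓ i' →
        p i j = p i' j' → i = i' ∧ j = j') := by
  refine ⟨3, ?_⟩
  intro k hk σ n hn G hG
  have : Nonempty (Fin n) := ⟨⟨0, hn⟩⟩
  have hK : ∀ v, 3 * k ≤ (Pool.Agent.J6H69.Mader.outA G.Adj Finset.univ v).card := by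
    intro v
    obtain ⟨S, hS, hS'⟩ := hG v
    refine hS.trans (Finset.card_le_card ?_)
    intro w hw
    rw [Pool.Agent.J6H69.Mader.mem_outA]
    exact ⟨Finset.mem_univ _, (hS' w hw).1, (hS' w hw).2⟩
  exact Pool.Agent.J6H69.Mader.sub_of_outdegree (adj := G.Adj) σ k (by omega) hK

end Pool.Agent.S12269
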