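import Pool.Statements.S12606
import Pool.Agent.Results.MP_fd346d_co.Disproof

set_option autoImplicit false
open scoped Classical
open Pool Pool.MP_fd346d_co

namespace Pool.Agent.S12606

open Pool.Agent.Results.MP_fd346d_co.Disproof in
/-- A realizer in the sense of the frozen statement from `Realizable`. -/
theorem realizer_of {P : Type} [PartialOrder P] {d : ℕ} (h : Realizable P d) :
    ∃ r : Fin d → P → P → Prop,
      (∀ i, (∀ x, r i x x) ∧ (∀ x y z, r i x y → r i y z → r i x z) ∧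
        (∀ x y, r i x y → r i y x → x = y) ∧ (∀ x y, r i x y ∨ r i y x)) ∧
      ∀ x y, x ≤ y ↔ ∀ i, r i x y := by
  obtain ⟨L, hL, h1, h2⟩ := h
  refine ⟨L, fun i => ?_, fun x y => ⟨fun hxy i => h1 i x y hxy, h2 x y⟩⟩
  have := hL i
  exact ⟨fun x => refl_of (L i) x, fun x y z => trans_of (L i),
    fun x y h h' => antisymm_of (L i) h h', fun x y => total_of (L i) x y⟩

open Pool.Agent.Results.MP_fd346d_co.Disproof in
/-- Conversely. -/
theorem realizable_of {P : Type} [PartialOrder P] {d : ℕ}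
    (h : ∃ r : Fin d → P → P → Prop,
      (∀ i, (∀ x, r i x x) ∧ (∀ x y z, r i x y → r i y z → r i x z) ∧
        (∀ x y, r i x y → r i y x → x = y) ∧ (∀ x y, r i x y ∨ r i y x)) ∧
      ∀ x y, x ≤ y ↔ ∀ i, r i x y) : Realizable P d := by
  obtain ⟨r, h1, h2⟩ := h
  refine ⟨r, fun i => ?_, fun i x y hxy => (h2 x y).1 hxy i, fun x y hxy => (h2 x y).2 hxy⟩
  exact
    { refl := (h1 i).1
      trans := (h1 i).2.1
      antisymm := (h1 i).2.2.1
      total := (h1 i).2.2.2 }

open Pool.Agent.Results.MP_fd346d_co.Disproof in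
theorem realizable_of_lt_top {P : Type} [PartialOrder P] (h : dim P ≠ ⊤) :
    ∃ d : ℕ, dim P = d ∧ Realizable P d := by
  by_contra hcon
  apply h
  have hno : ∀ d, ¬ Realizable P d := fun d hd => hcon (by
    obtain ⟨m, hm, hm'⟩ := exists_dim_eq hd
    exact ⟨m, hm, hm'⟩)
  unfold dim
  simp only [iInf_eq_top]
  intro d hd
  exact absurd hd (hno d)

open Pool.Agent.Results.MP_fd346d_co.Disproof in
theorem nontrivial_left {P Q : Type} [PartialOrder P] [PartialOrder Q] [Nonempty P]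
    (hPQ : dim (P × Q) ≠ ⊤) (h : dim (P × Q) < dim P + dim Q) : Nontrivial P := by
  by_contra hn
  rw [not_nontrivial_iff_subsingleton] at hn
  obtain ⟨m, hm, hm'⟩ := realizable_of_lt_top hPQ
  obtain ⟨p⟩ := ‹Nonempty P›
  have h0 : Realizable P 0 := ⟨fun i => i.elim0, fun i => i.elim0, fun i => i.elim0,
    fun x y _ => le_of_eq (Subsingleton.elim x y)⟩
  have h1 : Realizable Q m := by
    let f : Q ↪o P × Q :=
      { toFun := fun q => (p, q)
        inj' := fun a b hab => congrArg Prod.snd hab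
        map_rel_iff' := by
          intro a b
          exact ⟨fun h => h.2, fun h => ⟨le_rfl, h⟩⟩ }
    exact hm'.of_embedding f
  have h2 := dim_le h0
  have h3 := dim_le h1
  rw [hm] at h
  have h4 : dim P + dim Q ≤ ((0 : ℕ) : ℕ∞) + m := by gcongr
  have h5 := lt_of_lt_of_le h h4
  simp at h5

open Pool.Agent.Results.MP_fd346d_co.Disproof in
theorem nontrivial_right {P Q : Type} [PartialOrder P] [PartialOrder Q] [Nonempty Q]
    (hPQ : dim (P × Q) ≠ ⊤) (h : dim (P × Q) < dim P + dim Q) : Nontrivial Q := by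
  by_contra hn
  rw [not_nontrivial_iff_subsingleton] at hn
  obtain ⟨m, hm, hm'⟩ := realizable_of_lt_top hPQ
  obtain ⟨q⟩ := ‹Nonempty Q›
  have h0 : Realizable Q 0 := ⟨fun i => i.elim0, fun i => i.elim0, fun i => i.elim0,
    fun x y _ => le_of_eq (Subsingleton.elim x y)⟩
  have h1 : Realizable P m := by
    let f : P ↪o P × Q :=
      { toFun := fun p => (p, q)
        inj' := fun a b hab => congrArg Prod.fst hab
        map_rel_iff' := by
          intro a b
          exact ⟨fun h => h.1, fun h => ⟨h, le_rfl⟩⟩ }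
    exact hm'.of_embedding f
  have h2 := dim_le h0
  have h3 := dim_le h1
  rw [hm] at h
  have h4 : dim P + dim Q ≤ (m : ℕ∞) + ((0 : ℕ) : ℕ∞) := by gcongr
  have h5 := lt_of_lt_of_le h h4
  simp at h5

/-- The negation of the preceding statement: For all posets P, Q with at least two elements and finite dimension, dim P + dim Q ≤ dim(P×Q) + b, where b counts the factors lacking a least or greatest element; dimension means the least number of linear orders whose intersection is the order. -/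
theorem result :
    ¬ (∀ (P Q : Type) [PartialOrder P] [PartialOrder Q], Nontrivial P → Nontrivial Q →
      (∃ d : ℕ, ∃ r : Fin d → P → P → Prop,
        (∀ i, (∀ x, r i x x) ∧ (∀ x y z, r i x y → r i y z → r i x z) ∧
          (∀ x y, r i x y → r i y x → x = y) ∧ (∀ x y, r i x y ∨ r i y x)) ∧
        ∀ x y, x ≤ y ↔ ∀ i, r i x y) →
      (∃ d : ℕ, ∃ r : Fin d → Q → Q → Prop,
        (∀ i, (∀ x, r i x x) ∧ (∀ x y z, r i x y → r i y z → r i x z) ∧
          (∀ x y, r i x y → r i y x → x = y) ∧ (∀ x y, r i x y ∨ r i y x)) ∧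
        ∀ x y, x ≤ y ↔ ∀ i, r i x y) →
      ∀ n : ℕ,
        (∃ r : Fin n → P × Q → P × Q → Prop,
          (∀ i, (∀ x, r i x x) ∧ (∀ x y z, r i x y → r i y z → r i x z) ∧
            (∀ x y, r i x y → r i y x → x = y) ∧ (∀ x y, r i x y ∨ r i y x)) ∧
          ∀ x y, x ≤ y ↔ ∀ i, r i x y) →
        ∃ a c : ℕ,
          a + c ≤ n + ((if (∃ x : P, ∀ y, x ≤ y) ∧ (∃ x : P, ∀ y, y ≤ x) then 0 else 1) +
                       (if (∃ x : Q, ∀ y, x ≤ y) ∧ (∃ x : Q, ∀ y, y ≤ x) then 0 else 1)) ∧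
          (∃ r : Fin a → P → P → Prop,
            (∀ i, (∀ x, r i x x) ∧ (∀ x y z, r i x y → r i y z → r i x z) ∧
              (∀ x y, r i x y → r i y x → x = y) ∧ (∀ x y, r i x y ∨ r i y x)) ∧
            ∀ x y, x ≤ y ↔ ∀ i, r i x y) ∧
          (∃ r : Fin c → Q → Q → Prop,
            (∀ i, (∀ x, r i x x) ∧ (∀ x y z, r i x y → r i y z → r i x z) ∧
              (∀ x y, r i x y → r i y x → x = y) ∧ (∀ x y, r i x y ∨ r i y x)) ∧
            ∀ x y, x ≤ y ↔ ∀ i, r i x y)) := by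
  intro H
  obtain ⟨P, Q, _, _, _, _, _, _, hP, hQ, hb, hlt⟩ :=
    Pool.Agent.Results.MP_fd346d_co.Disproof.result 0 1 (Or.inl rfl)
  have hlt0 : Pool.Agent.Results.MP_fd346d_co.Disproof.dim (P × Q) <
      Pool.Agent.Results.MP_fd346d_co.Disproof.dim P +
        Pool.Agent.Results.MP_fd346d_co.Disproof.dim Q :=
    lt_of_le_of_lt (by rw [add_assoc]; exact le_self_add) hlt
  obtain ⟨m, hm, hm'⟩ := realizable_of_lt_top
    (P := P × Q) (ne_top_of_lt hlt0)
  have hnP := nontrivial_left (P := P) (Q := Q) (ne_top_of_lt hlt0) hlt0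
  have hnQ := nontrivial_right (P := P) (Q := Q) (ne_top_of_lt hlt0) hlt0
  obtain ⟨dP, hdP, hdP'⟩ := realizable_of_lt_top hP
  obtain ⟨dQ, hdQ, hdQ'⟩ := realizable_of_lt_top hQ
  obtain ⟨a, c, hac, ha, hc⟩ := H P Q hnP hnQ ⟨dP, realizer_of hdP'⟩ ⟨dQ, realizer_of hdQ'⟩ m
    (realizer_of hm')
  have ha' := Pool.Agent.Results.MP_fd346d_co.Disproof.dim_le (realizable_of ha)
  have hc' := Pool.Agent.Results.MP_fd346d_co.Disproof.dim_le (realizable_of hc)
  have hb' : ((if (∃ x : P, ∀ y, x ≤ y) ∧ (∃ x : P, ∀ y, y ≤ x) then 0 else 1) +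
      (if (∃ x : Q, ∀ y, x ≤ y) ∧ (∃ x : Q, ∀ y, y ≤ x) then 0 else 1)) = 1 := by
    unfold Pool.Agent.Results.MP_fd346d_co.Disproof.numUnbdd
      Pool.Agent.Results.MP_fd346d_co.Disproof.IsBdd at hb
    convert hb
  rw [hb'] at hac
  rw [hm, hdP, hdQ] at hlt
  rw [hdP] at ha'
  rw [hdQ] at hc'
  have h1 : dP ≤ a := by exact_mod_cast ha'
  have h2 : dQ ≤ c := by exact_mod_cast hc'
  have h3 : m + 1 + 0 < dP + dQ := by exact_mod_cast hlt
  omega

end Pool.Agent.S12606
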