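import Pool.Statements.S13710
import Pool.Agent.J6H44.NonUni.Lift

set_option autoImplicit false
open Pool Pool.MP_a6a8af_gt

namespace Pool.Agent.S13710

/-- The negation of the preceding statement: If X is a locally connected metric continuum that is a union of two subcontinua with disconnected intersection, and f is a local homeomorphism of X onto a metric space Y, then Y is also such a union. -/
theorem result :
    ¬ (∀ (X Y : Type) [MetricSpace X] [CompactSpace X] [ConnectedSpace X]
      [LocallyConnectedSpace X] [MetricSpace Y] (f : X → Y),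
      IsLocalHomeomorph f → Function.Surjective f →
      (∃ A B : Set X, IsClosed A ∧ IsClosed B ∧ IsConnected A ∧ IsConnected B ∧
          A ∪ B = Set.univ ∧ ¬ IsConnected (A ∩ B)) →
      (∃ A B : Set Y, IsClosed A ∧ IsClosed B ∧ IsConnected A ∧ IsConnected B ∧
          A ∪ B = Set.univ ∧ ¬ IsConnected (A ∩ B))) := by
  intro h
  obtain ⟨A, B, hA, hB, cA, cB, hAB, hn⟩ :=
    h J6H44.NonUni.X J6H44.NonUni.Y J6H44.NonUni.f J6H44.NonUni.isLocalHomeomorph_f
      J6H44.NonUni.surjective_f
      ⟨J6H44.NonUni.S true, J6H44.NonUni.S false, J6H44.NonUni.isClosed_S _,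
        J6H44.NonUni.isClosed_S _, J6H44.NonUni.isConnected_S _, J6H44.NonUni.isConnected_S _,
        J6H44.NonUni.S_union, J6H44.NonUni.not_isConnected_inter⟩
  exact hn (J6H44.NonUni.unicoherent_Y A B hA hB cA cB hAB)

end Pool.Agent.S13710
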