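import Pool.Statements.S15135
import Pool.Agent.J6H0.Bij.Final

set_option autoImplicit false
open Pool Pool.MP_a24eb1_lc

namespace Pool.Agent.S15135

/-- For each prime p and each degree bound d ≥ 2, once n and ℓ are large enough, no field of characteristic p has a degree-d polynomial calculus refutation of onto functional PHP with n+p^ℓ pigeons and n holes. -/
theorem result :
    ∀ p : ℕ, p.Prime → ∀ d : ℕ, 2 ≤ d → ∃ N : ℕ, ∀ n ℓ : ℕ, N ≤ n → N ≤ ℓ →
      ∀ (F : Type) [Field F] [CharP F p],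
        ¬ (∀ V : Submodule F (MvPolynomial (Fin (n + p ^ ℓ) × Fin n) F),
            (∀ f : MvPolynomial (Fin (n + p ^ ℓ) × Fin n) F,
              ((∃ v : Fin (n + p ^ ℓ) × Fin n,
                  f = MvPolynomial.X v ^ 2 - MvPolynomial.X v) ∨
               (∃ i : Fin (n + p ^ ℓ),
                  f = 1 - ∑ j : Fin n, MvPolynomial.X (i, j)) ∨
               (∃ i : Fin (n + p ^ ℓ), ∃ j k : Fin n, j ≠ k ∧
                  f = MvPolynomial.X (i, j) * MvPolynomial.X (i, k)) ∨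
               (∃ i i' : Fin (n + p ^ ℓ), ∃ j : Fin n, i ≠ i' ∧
                  f = MvPolynomial.X (i, j) * MvPolynomial.X (i', j)) ∨
               (∃ j : Fin n,
                  f = 1 - ∑ i : Fin (n + p ^ ℓ), MvPolynomial.X (i, j))) →
              f ∈ V) →
            (∀ f ∈ V, ∀ v : Fin (n + p ^ ℓ) × Fin n,
              (MvPolynomial.X v * f).totalDegree ≤ d → MvPolynomial.X v * f ∈ V) →
            (1 : MvPolynomial (Fin (n + p ^ ℓ) × Fin n) F) ∈ V) := by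
  intro p hp d hd
  refine ⟨(p + 2) ^ d + ((p + 2) ^ d + 2 * d) + d, ?_⟩
  intro n ℓ hn hl F _ _ hall
  obtain ⟨k, rfl⟩ : ∃ k, d = k + 1 := ⟨d - 1, by omega⟩
  have hld : k + 1 ≤ ℓ := by
    have : k + 1 ≤ (p + 2) ^ (k + 1) + ((p + 2) ^ (k + 1) + 2 * (k + 1)) + (k + 1) := by omega
    omega
  have hpos : 0 < p ^ (ℓ - (k + 1)) := Nat.pow_pos hp.pos
  obtain ⟨a, ha⟩ : ∃ a, p ^ (ℓ - (k + 1)) = a + 1 := ⟨p ^ (ℓ - (k + 1)) - 1, by omega⟩
  have he : p ^ ℓ = (a + 1) * p ^ (k + 1) := by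
    rw [← ha, ← pow_add]
    congr 1
    omega
  have hg : Pool.Agent.J6H0.Bij.Good F k (Fin (n + p ^ ℓ)) (Fin n) := by
    rw [he]
    exact Pool.Agent.J6H0.Bij.good_uniform p k n (by omega) a
  obtain ⟨V, ⟨h1, h2, h3, h4, h5⟩, h6, h7⟩ := Pool.Agent.J6H0.Bij.final k (by omega) hg
  refine h7 (hall V ?_ h6)
  rintro f (⟨v, rfl⟩ | ⟨i, rfl⟩ | ⟨i, j, l, hjl, rfl⟩ | ⟨i, i', j, hii, rfl⟩ | ⟨j, rfl⟩)
  · exact h1 v
  · exact h2 i
  · exact h3 i j l hjl
  · exact h4 i i' j hii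
  · exact h5 j

end Pool.Agent.S15135
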