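import Pool.Statements.S19299
import Pool.Agent.J6H44.BP.PAN1
import Pool.Agent.J6H44.BP.PAN1A
import Pool.Agent.J6H44.BP.PAN1B
import Pool.Agent.J6H44.BP.PAN1C
import Pool.Agent.J6H44.BP.PASM
import Pool.Agent.J6H44.BP.PASML
import Pool.Agent.J6H44.BP.PASMU
import Pool.Agent.J6H44.BP.PBREC
import Pool.Agent.J6H44.BP.PBRIDGE
import Pool.Agent.J6H44.BP.PBUDB
import Pool.Agent.J6H44.BP.PBUDGET
import Pool.Agent.J6H44.BP.PBUDK
import Pool.Agent.J6H44.BP.PENDV
import Pool.Agent.J6H44.BP.PFPROP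
import Pool.Agent.J6H44.BP.PGAIN
import Pool.Agent.J6H44.BP.PGROW
import Pool.Agent.J6H44.BP.PINDEP
import Pool.Agent.J6H44.BP.PJOIN
import Pool.Agent.J6H44.BP.PLOW
import Pool.Agent.J6H44.BP.PMAIN
import Pool.Agent.J6H44.BP.PMERGE
import Pool.Agent.J6H44.BP.PMREC
import Pool.Agent.J6H44.BP.PSERLO
import Pool.Agent.J6H44.BP.PSERUP
import Pool.Agent.J6H44.BP.PSPLIT
import Pool.Agent.J6H44.BP.PTHIN
import Pool.Agent.J6H44.BP.PTRIV
import Pool.Agent.J6H44.BP.PUDROP
import Pool.Agent.J6H44.BP.PUGEO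
import Pool.Agent.J6H44.BP.PUP
import Pool.Agent.J6H44.BP.PUPBOX
import Pool.Agent.J6H44.BP.PUPROD
import Pool.Agent.J6H44.BP.Final0

/-!
The second-order term of the modified bootstrap percolation threshold (frozen S19299).  The paper
proof is in the docstrings of `Pool.Agent.J6H44.BP.Stm`; the pieces were proven by helper12, 13, 17,
19, 22, 24, 36, 37, 40, 44, 48, 52, 54, 57, 58, 61, 72, 75, 81, 84, 88, 90, 92.
-/


set_option autoImplicit false
open scoped Classical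
open Pool Pool.MP_4d46d2_pr

namespace Pool.Agent.S19299

/-- The modified bootstrap percolation critical probability on the n-by-n grid equals π²/(6 log n) − 1/(log n)^(3/2+ε(n)) for all large n, for some sequence ε(n) tending to 0. -/
theorem result :
    ∃ ε : ℕ → ℝ, Filter.Tendsto ε Filter.atTop (nhds 0) ∧
      ∀ᶠ n : ℕ in Filter.atTop,
        sInf {p : ℝ | 0 ≤ p ∧ p ≤ 1 ∧
          (1 : ℝ) / 2 ≤ ∑ A : Finset (Fin n × Fin n),
            (if (∀ S : Finset (Fin n × Fin n), A ⊆ S →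
                  (∀ v : Fin n × Fin n,
                    ((∃ u ∈ S, u.2 = v.2 ∧ ((u.1 : ℕ) + 1 = v.1 ∨ (v.1 : ℕ) + 1 = u.1)) ∧
                     (∃ u ∈ S, u.1 = v.1 ∧ ((u.2 : ℕ) + 1 = v.2 ∨ (v.2 : ℕ) + 1 = u.2))) →
                    v ∈ S) →
                  S = Finset.univ)
              then p ^ A.card * (1 - p) ^ (n ^ 2 - A.card) else 0)}
        = Real.pi ^ 2 / (6 * Real.log n) - 1 / Real.log n ^ ((3 : ℝ) / 2 + ε n) := by
  have hgrow := J6H44.BP.grow
  have hsplit := J6H44.BP.split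
  have hf := J6H44.BP.fprop
  have hbase := J6H44.BP.base J6H44.BP.triv (J6H44.BP.brec_le hsplit hgrow)
    (J6H44.BP.an1 J6H44.BP.an1a J6H44.BP.an1b J6H44.BP.an1c)
  have hpath := J6H44.BP.path
  have hthin := J6H44.BP.thin hf
  have hbud := J6H44.BP.budget hf hpath (J6H44.BP.budk hf) (J6H44.BP.budb hf)
  have hjoin := J6H44.BP.join hf (J6H44.BP.merge hpath) hthin (J6H44.BP.gain hf)
  have hmain := J6H44.BP.main_ind hbase (J6H44.BP.mrec hsplit hgrow) hthin hbud hjoin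
  have hlow := J6H44.BP.low hsplit hmain (J6H44.BP.endv J6H44.BP.serlo hf)
  have hup := J6H44.BP.up J6H44.BP.harris (J6H44.BP.upbox J6H44.BP.indep) J6H44.BP.upseg
    (J6H44.BP.udrop J6H44.BP.harris J6H44.BP.fill) (J6H44.BP.uprod J6H44.BP.serup hf) J6H44.BP.ugeo
  exact J6H44.BP.frozen_of_asm
    (J6H44.BP.asm hlow hup J6H44.BP.bridge J6H44.BP.asmu J6H44.BP.asml)
end Pool.Agent.S19299
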