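import Pool.Statements.S19444
import Pool.Agent.J6H79.DR2

set_option autoImplicit false
open Filter Topology
open Pool Pool.MP_85987b_pr

namespace Pool.Agent.S19444

open Finset Pool.Agent.J6H79.DR

/-- the shape of the heavy tail -/
noncomputable def u (k : ℕ) : ℝ := 1 / ((k : ℝ) * (k + 1) * (k + 2))

theorem u_nonneg (k : ℕ) : 0 ≤ u k := by unfold u; positivity

theorem u_zero : u 0 = 0 := by simp [u]

theorem u_sum (n : ℕ) : ∑ k ∈ range (n + 1), u k = 1 / 4 - 1 / (2 * ((n : ℝ) + 1) * (n + 2)) := by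
  induction n with
  | zero => simp [u]; norm_num
  | succ n ih =>
    rw [Finset.sum_range_succ, ih, u]
    push_cast
    field_simp
    ring

theorem ku_sum (n : ℕ) : ∑ k ∈ range (n + 1), (k : ℝ) * u k = 1 / 2 - 1 / ((n : ℝ) + 2) := by
  induction n with
  | zero => simp [u]
  | succ n ih =>
    rw [Finset.sum_range_succ, ih, u]
    push_cast
    field_simp
    ring

theorem u_hasSum : HasSum u (1 / 4) := by
  rw [hasSum_iff_tendsto_nat_of_nonneg u_nonneg]
  rw [← tendsto_add_atTop_iff_nat 1]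
  have h1 : Tendsto (fun n : ℕ => 1 / 4 - 1 / (2 * ((n : ℝ) + 1) * (n + 2))) atTop
      (𝓝 (1 / 4 - 0)) := by
    apply Tendsto.sub tendsto_const_nhds
    apply squeeze_zero (g := fun n : ℕ => 1 / ((n : ℝ) + 1)) (fun n => by positivity)
    · intro n
      apply one_div_le_one_div_of_le (by positivity)
      have : (0 : ℝ) ≤ n := by positivity
      nlinarith
    · exact tendsto_one_div_add_atTop_nhds_zero_nat
  rw [sub_zero] at h1
  exact h1.congr (fun n => (u_sum n).symm)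

theorem ku_hasSum : HasSum (fun k : ℕ => (k : ℝ) * u k) (1 / 2) := by
  rw [hasSum_iff_tendsto_nat_of_nonneg (fun k => mul_nonneg (by positivity) (u_nonneg k))]
  rw [← tendsto_add_atTop_iff_nat 1]
  have h1 : Tendsto (fun n : ℕ => 1 / 2 - 1 / ((n : ℝ) + 2)) atTop (𝓝 (1 / 2 - 0)) := by
    apply Tendsto.sub tendsto_const_nhds
    apply squeeze_zero (g := fun n : ℕ => 1 / ((n : ℝ) + 1)) (fun n => by positivity)
    · intro n
      apply one_div_le_one_div_of_le (by positivity)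
      linarith
    · exact tendsto_one_div_add_atTop_nhds_zero_nat
  rw [sub_zero] at h1
  exact h1.congr (fun n => (ku_sum n).symm)

/-- `∑ u k / 2 ^ k` -/
noncomputable def U : ℝ := ∑' k : ℕ, u k / 2 ^ k

theorem U_summable : Summable (fun k : ℕ => u k / 2 ^ k) := by
  refine Summable.of_nonneg_of_le (fun k => div_nonneg (u_nonneg k) (by positivity)) (fun k => ?_)
    u_hasSum.summable
  exact div_le_self (u_nonneg k) (one_le_pow₀ (by norm_num))

theorem U_nonneg : 0 ≤ U := tsum_nonneg (fun k => div_nonneg (u_nonneg k) (by positivity))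

/-- the normalization -/
noncomputable def A : ℝ := 1 / (1 / 4 + U)

theorem A_pos : 0 < A := by
  have := U_nonneg
  unfold A
  positivity

/-- the weights `2 ^ k P(X_0 = k)` -/
noncomputable def q0 (k : ℕ) : ℝ := A * (u k + if k = 0 then 1 / 4 else 0)

/-- the initial law -/
noncomputable def p0 (k : ℕ) : ℝ := q0 k / 2 ^ k

theorem q0_nonneg (k : ℕ) : 0 ≤ q0 k := by
  unfold q0
  apply mul_nonneg A_pos.le
  apply add_nonneg (u_nonneg k)
  split_ifs <;> norm_num

theorem q0_hasSum : HasSum q0 (A / 2) := by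
  have h1 : HasSum (fun k : ℕ => if k = 0 then (1 / 4 : ℝ) else 0) (1 / 4) := by
    simpa using hasSum_ite_eq (0 : ℕ) (1 / 4 : ℝ)
  have h2 := (u_hasSum.add h1).mul_left A
  have h3 : A / 2 = A * (1 / 4 + 1 / 4) := by ring
  rw [h3]
  exact h2

theorem kq0_hasSum : HasSum (fun k : ℕ => (k : ℝ) * q0 k) (A / 2) := by
  have h2 := ku_hasSum.mul_left A
  have h3 : A / 2 = A * (1 / 2) := by ring
  rw [h3]
  have h4 : (fun k : ℕ => (k : ℝ) * q0 k) = fun k : ℕ => A * ((k : ℝ) * u k) := by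
    funext k
    unfold q0
    by_cases hk : k = 0
    · subst hk; simp
    · simp only [if_neg hk]; ring
  rw [h4]
  exact h2

theorem p0_hasSum : HasSum p0 1 := by
  have h1 : HasSum (fun k : ℕ => if k = 0 then (1 / 4 : ℝ) else 0) (1 / 4) := by
    simpa using hasSum_ite_eq (0 : ℕ) (1 / 4 : ℝ)
  have h2 := (U_summable.hasSum.add h1).mul_left A
  have h3 : (1 : ℝ) = A * (U + 1 / 4) := by
    unfold A
    have := U_nonneg
    field_simp
    ring
  rw [h3]
  have h4 : p0 = fun k : ℕ => A * (u k / 2 ^ k + if k = 0 then (1 / 4 : ℝ) else 0) := by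
    funext k
    unfold p0 q0
    by_cases hk : k = 0
    · subst hk; simp
    · simp only [if_neg hk]; ring
  rw [h4]
  exact h2

/-- the laws -/
noncomputable def p : ℕ → ℕ → ℝ
  | 0 => p0
  | n + 1 => fun k =>
      (∑ x : Fin 2 → Fin (k + 2),
              if (∑ i, (x i : ℕ)) = k + 1 then ∏ i, p n (x i) else 0)
          + (if k = 0 then p n 0 ^ 2 else 0)

theorem sum_fin_eq (f : ℕ → ℝ) (k : ℕ) :
    (∑ x : Fin 2 → Fin (k + 2), if (∑ i, (x i : ℕ)) = k + 1 then ∏ i, f (x i) else 0)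
      = cv f (k + 1) := by
  rw [cv, Finset.Nat.sum_antidiagonal_eq_sum_range_succ (fun i j => f i * f j),
    ← Equiv.sum_comp (finTwoArrowEquiv (Fin (k + 2))).symm, Fintype.sum_prod_type,
    Finset.sum_range]
  refine Finset.sum_congr rfl (fun i _ => ?_)
  rw [Finset.sum_eq_single (⟨k + 1 - i, by omega⟩ : Fin (k + 2))]
  · rw [if_pos]
    · simp [finTwoArrowEquiv]
    · simp [finTwoArrowEquiv]
      omega
  · intro j _ hj
    rw [if_neg]
    intro h
    apply hj
    apply Fin.ext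
    simp [finTwoArrowEquiv] at h
    simp
    omega
  · intro h
    exact absurd (Finset.mem_univ _) h

theorem p_succ (n k : ℕ) : p (n + 1) k = cv (p n) (k + 1) + if k = 0 then (p n 0) ^ 2 else 0 := by
  rw [← sum_fin_eq]
  rfl

/-- the weights `2 ^ k P(X_n = k)` -/
noncomputable def q (n k : ℕ) : ℝ := p n k * 2 ^ k

theorem cv_scale (f : ℕ → ℝ) (l : ℕ) : cv (fun k => f k * 2 ^ k) l = cv f l * 2 ^ l := by
  unfold cv
  rw [Finset.sum_mul]
  refine Finset.sum_congr rfl (fun ij hij => ?_)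
  rw [HasAntidiagonal.mem_antidiagonal] at hij
  rw [← hij, pow_add]
  ring

theorem q_succ (n k : ℕ) :
    q (n + 1) k = (1 / 2) * cv (q n) (k + 1) + if k = 0 then (q n 0) ^ 2 else 0 := by
  have h1 : cv (q n) (k + 1) = cv (p n) (k + 1) * 2 ^ (k + 1) := cv_scale (p n) (k + 1)
  rw [h1, q, p_succ]
  by_cases hk : k = 0
  · subst hk; simp [q]; ring
  · simp only [if_neg hk]
    rw [pow_succ]; ring

theorem p_nonneg (n k : ℕ) : 0 ≤ p n k := by
  induction n generalizing k with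
  | zero => exact div_nonneg (q0_nonneg k) (by positivity)
  | succ n ih =>
    rw [p_succ]
    apply add_nonneg (cv_nonneg _ ih _)
    split_ifs
    · positivity
    · exact le_rfl

theorem q_nonneg (n k : ℕ) : 0 ≤ q n k := mul_nonneg (p_nonneg n k) (by positivity)

theorem q_zero : q 0 = q0 := by
  funext k
  have : p 0 k = q0 k / 2 ^ k := rfl
  rw [q, this]
  field_simp

theorem p_hasSum (n : ℕ) : HasSum (p n) 1 := by
  induction n with
  | zero => exact p0_hasSum
  | succ n ih =>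
    have h1 := cv_hasSum (p n) (p_nonneg n) 1 ih
    have h2 : HasSum (fun k => cv (p n) (k + 1)) (1 ^ 2 - p n 0 ^ 2) := by
      have := (hasSum_nat_add_iff' (f := cv (p n)) 1).2 h1
      simpa [cv_zero] using this
    have h4 : HasSum (fun k : ℕ => if k = 0 then (p n 0) ^ 2 else 0) ((p n 0) ^ 2) := by
      have := hasSum_ite_eq (0 : ℕ) ((p n 0) ^ 2)
      simpa using this
    have h5 := h2.add h4
    have h6 : p (n + 1) = fun k => cv (p n) (k + 1) + if k = 0 then (p n 0) ^ 2 else 0 :=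
      funext (p_succ n)
    rw [h6]
    have h7 : (1 : ℝ) = 1 ^ 2 - p n 0 ^ 2 + p n 0 ^ 2 := by ring
    rw [h7]
    exact h5

/-- `E 2 ^ X_n` -/
noncomputable def g : ℕ → ℝ
  | 0 => A / 2
  | n + 1 => (g n ^ 2 + q n 0 ^ 2) / 2

theorem q_hasSum (n : ℕ) : HasSum (q n) (g n) ∧ HasSum (fun k : ℕ => (k : ℝ) * q n k) (g n) := by
  induction n with
  | zero =>
    rw [q_zero]
    exact ⟨q0_hasSum, kq0_hasSum⟩
  | succ n ih =>
    refine ⟨step_sum (q n) (q (n + 1)) (q_nonneg n) (g n) ih.1 (q_succ n), ?_⟩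
    have h := step_dsum (q n) (q (n + 1)) (q_nonneg n) (g n) (g n) ih.1 ih.2 (q_succ n)
    have h2 : g (n + 1) = (2 * (g n * g n) - (g n ^ 2 - q n 0 ^ 2)) / 2 := by
      rw [g]; ring
    rw [h2]
    exact h

theorem g_ge (n : ℕ) : 1 ≤ g n := by
  have h1 := p_hasSum n
  have h2 := (q_hasSum n).1
  refine hasSum_le (fun k => ?_) h1 h2
  rw [q]
  exact le_mul_of_one_le_right (p_nonneg n k) (one_le_pow₀ (by norm_num))

theorem g_le (n : ℕ) : g n ≤ 2 := by
  have h1 := (p_hasSum n).mul_left 2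
  have h2 := (q_hasSum n).1.mul_left 2
  have h3 := (q_hasSum n).2.add h1
  have h4 : 2 * g n ≤ g n + 2 * 1 := by
    refine hasSum_le (fun k => ?_) h2 h3
    have hp := p_nonneg n k
    simp only [q]
    have key : 2 * (2 : ℝ) ^ k ≤ k * 2 ^ k + 2 := by
      rcases k with _ | _ | k
      · norm_num
      · norm_num
      · have : (0 : ℝ) < 2 ^ (k + 2) := by positivity
        push_cast
        nlinarith [show (0 : ℝ) ≤ (k : ℝ) from by positivity]
    nlinarith
  linarith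

theorem tail0 (N : ℕ) (hN : 1 ≤ N) :
    (A / 12) / (N : ℝ) ^ 2 ≤ g 0 - ∑ i ∈ range (N + 1), q 0 i := by
  have h1 : ∑ i ∈ range (N + 1), q 0 i = A * (1 / 4 - 1 / (2 * ((N : ℝ) + 1) * (N + 2)) + 1 / 4) := by
    rw [q_zero]
    simp only [q0]
    rw [← Finset.mul_sum, Finset.sum_add_distrib, u_sum]
    congr 2
    rw [Finset.sum_ite_eq' (range (N + 1)) 0, if_pos (Finset.mem_range.2 (by omega))]
  rw [h1]
  have h2 : g 0 - A * (1 / 4 - 1 / (2 * ((N : ℝ) + 1) * (N + 2)) + 1 / 4) =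
      A * (1 / (2 * ((N : ℝ) + 1) * (N + 2))) := by
    rw [g]; ring
  rw [h2]
  have h3 : (A / 12) / (N : ℝ) ^ 2 = A * (1 / (12 * (N : ℝ) ^ 2)) := by
    field_simp
  rw [h3]
  apply mul_le_mul_of_nonneg_left _ A_pos.le
  have hN' : (1 : ℝ) ≤ N := by exact_mod_cast hN
  apply one_div_le_one_div_of_le (by positivity)
  nlinarith

/-- The negation of the preceding statement: For integer m≥2 and any law of X_0 on ℕ with P(X_0=0)>0 and (m−1)E(X_0 m^X_0)=E(m^X_0)<∞, where X_{n+1} is (sum of m iid copies of X_n minus 1)^+: for all s in (0,m), s≠1, (E s^X_n − 1) divided by 4m/(m−1)²·(s−1)/(m−s)/n² tends to 1. -/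
theorem result :
    ¬ (∀ (m : ℕ), 2 ≤ m → ∀ p : ℕ → ℕ → ℝ,
      (∀ k, 0 ≤ p 0 k) → HasSum (p 0) 1 →
      (∀ n k, p (n + 1) k =
          (∑ x : Fin m → Fin (k + 2),
              if (∑ i, (x i : ℕ)) = k + 1 then ∏ i, p n (x i) else 0)
          + (if k = 0 then p n 0 ^ m else 0)) →
      Summable (fun k : ℕ => p 0 k * (m : ℝ) ^ k) →
      Summable (fun k : ℕ => (k : ℝ) * p 0 k * (m : ℝ) ^ k) →
      ((m : ℝ) - 1) * (∑' k : ℕ, (k : ℝ) * p 0 k * (m : ℝ) ^ k)
          = ∑' k : ℕ, p 0 k * (m : ℝ) ^ k →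
      0 < p 0 0 →
      ∀ s : ℝ, 0 < s → s < (m : ℝ) → s ≠ 1 →
        Tendsto
          (fun n : ℕ =>
            ((∑' k : ℕ, p n k * s ^ k) - 1) /
              (4 * (m : ℝ) / (((m : ℝ) - 1) ^ 2) * ((s - 1) / ((m : ℝ) - s)) / ((n : ℝ) ^ 2)))
          atTop (𝓝 1)) := by
  intro H
  have hq0 : (fun k : ℕ => p 0 k * ((2 : ℕ) : ℝ) ^ k) = q0 := by
    rw [← q_zero]
    funext k
    simp [q]
  have hkq0 : (fun k : ℕ => (k : ℝ) * p 0 k * ((2 : ℕ) : ℝ) ^ k) = fun k : ℕ => (k : ℝ) * q0 k := by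
    rw [← hq0]
    funext k
    ring
  have hT := H 2 le_rfl p (p_nonneg 0) (p_hasSum 0) (fun n k => rfl)
    (by rw [hq0]; exact q0_hasSum.summable) (by rw [hkq0]; exact kq0_hasSum.summable)
    (by
      rw [hq0, hkq0, q0_hasSum.tsum_eq, kq0_hasSum.tsum_eq]
      push_cast; ring)
    (by
      have : p 0 0 = q0 0 := by
        have : p 0 0 = q0 0 / 2 ^ 0 := rfl
        simpa using this
      rw [this, q0]
      have := A_pos
      simp [u]
      positivity)
    (1 / 2) (by norm_num) (by norm_num) (by norm_num)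
  -- consequences for `1 - p n 0`
  set G : ℕ → ℝ := fun n => ∑' k : ℕ, p n k * (1 / 2 : ℝ) ^ k with hG
  have hsum : ∀ n, Summable (fun k : ℕ => p n k * (1 / 2 : ℝ) ^ k) := by
    intro n
    refine Summable.of_nonneg_of_le (fun k => mul_nonneg (p_nonneg n k) (by positivity))
      (fun k => ?_) (p_hasSum n).summable
    exact mul_le_of_le_one_right (p_nonneg n k) (pow_le_one₀ (by norm_num) (by norm_num))
  have hG1 : ∀ n, p n 0 ≤ G n := by
    intro n
    have h1 := (hsum n).sum_le_tsum {0} (fun k _ => mul_nonneg (p_nonneg n k) (by positivity))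
    rw [Finset.sum_singleton, pow_zero, mul_one] at h1
    exact h1
  have hG2 : ∀ n, G n ≤ (1 + p n 0) / 2 := by
    intro n
    have h1 : HasSum (fun k : ℕ => if k = 0 then p n 0 / 2 else 0) (p n 0 / 2) := by
      simpa using hasSum_ite_eq (0 : ℕ) (p n 0 / 2)
    have h2 := ((p_hasSum n).mul_left (1 / 2)).add h1
    have h3 := (hsum n).hasSum
    have h4 := hasSum_le (fun k => ?_) h3 h2
    · calc G n ≤ 1 / 2 * 1 + p n 0 / 2 := h4
        _ = _ := by ring
    · by_cases hk : k = 0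
      · subst hk; simp; linarith
      · simp only [if_neg hk, add_zero]
        have h5 : (1 / 2 : ℝ) ^ k ≤ (1 / 2) ^ 1 :=
          pow_le_pow_of_le_one (by norm_num) (by norm_num) (by omega)
        have := p_nonneg n k
        nlinarith
  have hT1 : ∀ᶠ n : ℕ in atTop, 0.99 < (G n - 1) /
      (4 * ((2 : ℕ) : ℝ) / ((((2 : ℕ) : ℝ) - 1) ^ 2) * ((1 / 2 - 1) / (((2 : ℕ) : ℝ) - 1 / 2)) /
        ((n : ℝ) ^ 2)) := hT.eventually (lt_mem_nhds (by norm_num))
  have hT2 : ∀ᶠ n : ℕ in atTop, (G n - 1) /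
      (4 * ((2 : ℕ) : ℝ) / ((((2 : ℕ) : ℝ) - 1) ^ 2) * ((1 / 2 - 1) / (((2 : ℕ) : ℝ) - 1 / 2)) /
        ((n : ℝ) ^ 2)) < 1.01 := hT.eventually (gt_mem_nhds (by norm_num))
  obtain ⟨n0, hn0⟩ := eventually_atTop.1 ((hT1.and hT2).and (eventually_ge_atTop 1))
  have hconv : ∀ n : ℕ, 1 ≤ n → (G n - 1) /
      (4 * ((2 : ℕ) : ℝ) / ((((2 : ℕ) : ℝ) - 1) ^ 2) * ((1 / 2 - 1) / (((2 : ℕ) : ℝ) - 1 / 2)) /
        ((n : ℝ) ^ 2)) = (1 - G n) * (n : ℝ) ^ 2 * (3 / 8) := by
    intro n hn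
    have hn' : (0 : ℝ) < n := by exact_mod_cast hn
    push_cast
    field_simp
    ring
  refine main_contra q g (A / 12) (by have := A_pos; positivity) q_nonneg (fun n => (q_hasSum n).1)
    q_succ g_ge g_le (fun n => rfl) tail0 n0 ?_ ?_
  · intro n hn
    obtain ⟨⟨h1, h2⟩, h3⟩ := hn0 n hn
    rw [hconv n h3] at h1 h2
    have h4 := hG2 n
    have h5 : q n 0 = p n 0 := by simp [q]
    rw [h5]
    have h6 : (1 - p n 0) * (n : ℝ) ^ 2 ≤ (2 * (1 - G n)) * (n : ℝ) ^ 2 :=
      mul_le_mul_of_nonneg_right (by linarith) (by positivity)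
    nlinarith
  · intro n hn
    obtain ⟨⟨h1, h2⟩, h3⟩ := hn0 n hn
    rw [hconv n h3] at h1 h2
    have h4 := hG1 n
    have h5 : q n 0 = p n 0 := by simp [q]
    rw [h5]
    have h6 : (1 - G n) * (n : ℝ) ^ 2 ≤ (1 - p n 0) * (n : ℝ) ^ 2 :=
      mul_le_mul_of_nonneg_right (by linarith) (by positivity)
    nlinarith

end Pool.Agent.S19444
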